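import Pool.Agent.LCF.Whole
import Pool.Agent.MB86.All

set_option autoImplicit false

/-!
Whole blocks merge: closing the hypothesis of `Whole.lean`.
-/

namespace Pool.Agent.LCF

theorem all_MonoT : MonoT := Pool.Agent.MB86.monoT

end Pool.Agent.LCF
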