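import Mathlib
import Pool.Agent.LC86.Dens
import Pool.Agent.Collatz3.ND

set_option autoImplicit false

/-!
A criterion with very short blocks: if the invariant set `A` has an element of sign `σ`, then a positive
proportion of the blocks `(x, x + H]` contain fewer than `M` elements outside `A`, as soon as
`(H / M) sqrt (log (2 H) / log X)` tends to `0`.
-/

namespace Pool.Agent.LCF

open Filter Topology
open Pool.Agent.Helper14 (T)
open Pool.Agent.Helper86.CollatzChain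
open Pool.Agent.LC86

/-- The number of integers `n` of `(x, x + H]` with `σ n ∈ N`. -/
noncomputable def NumH (σ : ℤ) (N : Set ℤ) (H x : ℕ) : ℕ :=
  Set.ncard {n : ℕ | x < n ∧ n ≤ x + H ∧ σ * (n : ℤ) ∈ N}

/-- For `X` in a sequence tending to infinity, all but `o(X)` of the blocks `(x, x + H]`, `X ≤ x < 2 X`,
contain at least `M ≥ 1` integers `n` with `σ n ∈ N`; here `(H / M) sqrt (log (2 H) / log X)` tends to `0`. -/
def Few (σ : ℤ) (N : Set ℤ) : Prop :=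
  ∃ H M : ℕ → ℕ, (∀ X, 1 ≤ M X) ∧
    Tendsto (fun X : ℕ => (H X : ℝ) / M X * Real.sqrt (Real.log (2 * H X) / Real.log X)) atTop (𝓝 0) ∧
    ∀ ε : ℝ, 0 < ε → ∃ᶠ X : ℕ in atTop,
      (Set.ncard {x : ℕ | X ≤ x ∧ x < 2 * X ∧ NumH σ N (H X) x < M X} : ℝ) ≤ ε * X

private theorem fin_blk (x H : ℕ) (P : ℕ → Prop) : {n : ℕ | x < n ∧ n ≤ x + H ∧ P n}.Finite :=
  (Set.finite_Iic (x + H)).subset fun _ hn => hn.2.1

private theorem fin_X (X : ℕ) (P : ℕ → Prop) : {x : ℕ | X ≤ x ∧ x < 2 * X ∧ P x}.Finite :=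
  (Set.finite_Iio (2 * X)).subset fun _ hn => hn.2.1

private theorem inv_iter {A : Set ℤ} (hA : ∀ n, T n ∈ A ↔ n ∈ A) (k : ℕ) : ∀ n, T^[k] n ∈ A ↔ n ∈ A := by
  induction k with
  | zero => intro n; rfl
  | succ k ih => intro n; rw [Function.iterate_succ_apply, ih, hA]

/-- the elements outside `A` near an `x` in `A` do not merge with `x` -/
private theorem num_le_nm {A : Set ℤ} (hA : ∀ n, T n ∈ A ↔ n ∈ A) {σ : ℤ} {k H x : ℕ}
    (hx : σ * (x : ℤ) ∈ A) : NumH σ Aᶜ H x ≤ nm σ k H x := by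
  classical
  unfold NumH nm
  rw [← Set.ncard_coe_finset]
  apply Set.ncard_le_ncard_of_injOn (fun n : ℕ => n - x) (ht := Finset.finite_toSet _)
  · rintro n ⟨h1, h2, h3⟩
    rw [Finset.mem_coe, Finset.mem_filter, Finset.mem_Icc]
    refine ⟨⟨by omega, by omega⟩, fun h7 => ?_⟩
    apply h3
    have h8 := merge_of_w h7
    rw [Nat.add_sub_cancel' h1.le] at h8
    rw [← inv_iter hA k, ← h8, inv_iter hA k]
    exact hx
  · rintro m ⟨hm, _⟩ n ⟨hn, _⟩ hmn
    simp only at hmn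
    omega

private theorem main_ineq {A : Set ℤ} (hA : ∀ n, T n ∈ A ↔ n ∈ A) {σ : ℤ} (X H M : ℕ) :
    Set.ncard {x : ℕ | X ≤ x ∧ x < 2 * X ∧ σ * (x : ℤ) ∈ A} ≤
      Set.ncard {x : ℕ | X ≤ x ∧ x < 2 * X ∧ NumH σ Aᶜ H x < M} +
      Set.ncard {x : ℕ | X ≤ x ∧ x < 2 * X ∧ M ≤ nm σ (Nat.log 2 (2 * X) / 2) H x} := by
  refine (Set.ncard_le_ncard ?_ ((fin_X X _).union (fin_X X _))).trans (Set.ncard_union_le _ _)
  rintro x ⟨hx1, hx2, hx3⟩
  by_cases h : NumH σ Aᶜ H x < M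
  · exact Or.inl ⟨hx1, hx2, h⟩
  · exact Or.inr ⟨hx1, hx2, (not_lt.1 h).trans (num_le_nm hA hx3)⟩

private theorem nm_zero (σ : ℤ) (k x : ℕ) : nm σ k 0 x = 0 := by
  classical
  unfold nm
  simp

private theorem bad_le : ∃ C : ℝ, 0 < C ∧ ∀ (σ : ℤ) (X H M : ℕ), |σ| = 1 → 2 ≤ X → 1 ≤ M →
    (Set.ncard {x : ℕ | X ≤ x ∧ x < 2 * X ∧ M ≤ nm σ (Nat.log 2 (2 * X) / 2) H x} : ℝ) ≤
      C * X * ((H : ℝ) / M * Real.sqrt (Real.log (2 * H) / Real.log X)) := by
  classical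
  obtain ⟨C, hC, hm⟩ := markov
  refine ⟨8 * C, by positivity, fun σ X H M hσ hX hM => ?_⟩
  have hX1 : (1 : ℝ) < X := by exact_mod_cast (show 1 < X by omega)
  have hX0 : (0 : ℝ) < X := by linarith
  have hlog : 0 < Real.log X := Real.log_pos hX1
  have hM0 : (0 : ℝ) < M := by exact_mod_cast hM
  rcases Nat.eq_zero_or_pos H with h0 | hH
  · subst h0
    have h1 : {x : ℕ | X ≤ x ∧ x < 2 * X ∧ M ≤ nm σ (Nat.log 2 (2 * X) / 2) 0 x} = ∅ := by
      apply Set.eq_empty_of_forall_notMem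
      rintro x ⟨_, _, h3⟩
      rw [nm_zero] at h3
      omega
    rw [h1, Set.ncard_empty]
    simp
  have hH0 : (0 : ℝ) < H := by exact_mod_cast hH
  have hH1 : (1 : ℝ) ≤ H := by exact_mod_cast hH
  have h1 := hm σ (2 * X) H ((M : ℝ) / (2 * H)) hσ (by omega) hH (by positivity)
  have h2 : Set.ncard {x : ℕ | X ≤ x ∧ x < 2 * X ∧ M ≤ nm σ (Nat.log 2 (2 * X) / 2) H x} ≤
      ((Finset.range (2 * X + 1)).filter
      fun x => (M : ℝ) / (2 * H) * H < (nm σ (Nat.log 2 (2 * X) / 2) H x : ℝ)).card := by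
    rw [← Set.ncard_coe_finset]
    apply Set.ncard_le_ncard _ (Finset.finite_toSet _)
    rintro x ⟨_, hx2, hx3⟩
    rw [Finset.mem_coe, Finset.mem_filter, Finset.mem_range]
    refine ⟨by omega, ?_⟩
    have e1 : (M : ℝ) / (2 * H) * H = M / 2 := by field_simp
    have e2 : (M : ℝ) ≤ (nm σ (Nat.log 2 (2 * X) / 2) H x : ℝ) := by exact_mod_cast hx3
    rw [e1]
    linarith
  have h3 : (Set.ncard {x : ℕ | X ≤ x ∧ x < 2 * X ∧ M ≤ nm σ (Nat.log 2 (2 * X) / 2) H x} : ℝ) ≤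
      C / ((M : ℝ) / (2 * H)) * ((2 * X : ℕ) : ℝ) *
        Real.sqrt ((1 + Real.log H) / Real.log ((2 * X : ℕ) : ℝ)) := by
    refine le_trans ?_ h1
    exact_mod_cast h2
  refine h3.trans ?_
  have h4 : Real.sqrt ((1 + Real.log H) / Real.log ((2 * X : ℕ) : ℝ)) ≤
      2 * Real.sqrt (Real.log (2 * H) / Real.log X) := by
    have h5 : (2 : ℝ) * Real.sqrt (Real.log (2 * H) / Real.log X) =
        Real.sqrt (4 * (Real.log (2 * H) / Real.log X)) := by
      rw [Real.sqrt_mul (by norm_num)]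
      have : Real.sqrt 4 = 2 := by
        rw [show (4 : ℝ) = 2 ^ 2 by norm_num, Real.sqrt_sq (by norm_num)]
      rw [this]
    rw [h5]
    apply Real.sqrt_le_sqrt
    have h6 : Real.log X ≤ Real.log ((2 * X : ℕ) : ℝ) := by
      apply Real.log_le_log hX0
      push_cast
      linarith
    have h7 : 1 + Real.log H ≤ 4 * Real.log (2 * H) := by
      rw [Real.log_mul (by norm_num) hH0.ne']
      have := Real.log_two_gt_d9
      have := Real.log_nonneg hH1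
      linarith
    have h8 : 0 ≤ 1 + Real.log H := by
      have := Real.log_nonneg hH1
      linarith
    rw [mul_div_assoc']
    exact div_le_div₀ (by linarith) h7 hlog h6
  have h9 : (0 : ℝ) ≤ C / ((M : ℝ) / (2 * H)) * ((2 * X : ℕ) : ℝ) := by positivity
  refine (mul_le_mul_of_nonneg_left h4 h9).trans (le_of_eq ?_)
  push_cast
  field_simp
  ring

/-- A member of sign `σ`: a positive proportion of the blocks have fewer than `M` integers outside `A`. -/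
theorem many_full {σ : ℤ} (hσ : |σ| = 1) {A : Set ℤ} (hA : ∀ n, T n ∈ A ↔ n ∈ A) {a : ℤ} (ha : a ∈ A)
    (hpos : 0 < σ * a) {H M : ℕ → ℕ} (hM : ∀ X, 1 ≤ M X)
    (hlim : Tendsto (fun X : ℕ => (H X : ℝ) / M X * Real.sqrt (Real.log (2 * H X) / Real.log X))
      atTop (𝓝 0)) :
    ∃ δ : ℝ, 0 < δ ∧ ∀ᶠ X : ℕ in atTop,
      δ * X < (Set.ncard {x : ℕ | X ≤ x ∧ x < 2 * X ∧ NumH σ Aᶜ (H X) x < M X} : ℝ) := by
  obtain ⟨c, hc, hN⟩ := Pool.Agent.Collatz3.ND.main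
  obtain ⟨D, g1, -, -, -, g5, -⟩ := hN σ hσ
  obtain ⟨C, hC, hb⟩ := bad_le
  have hd0 := g5 A hA a ha hpos
  have ha0 : 0 < |(a : ℝ)| := by
    rw [abs_pos]
    intro h6
    have h7 : a = 0 := by exact_mod_cast h6
    rw [h7, mul_zero] at hpos
    exact lt_irrefl _ hpos
  obtain ⟨d, hd⟩ : ∃ d, d = D A := ⟨_, rfl⟩
  rw [← hd] at hd0
  have hdpos : 0 < d := lt_of_lt_of_le (by positivity) hd0
  have hD1 := (g1 0 A (fun n _ => hA n)).tendsto
  have hD2 : Tendsto (fun x : ℝ => (Set.ncard {m : ℕ | (m : ℝ) ≤ x ∧ σ * (m : ℤ) ∈ A} : ℝ) / x)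
      atTop (𝓝 d) := by
    rw [hd]
    exact hD1
  refine ⟨d / 4, by positivity, ?_⟩
  have hlim2 : ∀ᶠ X : ℕ in atTop,
      (H X : ℝ) / M X * Real.sqrt (Real.log (2 * H X) / Real.log X) < d / (8 * C) :=
    hlim.eventually_lt_const (by positivity)
  filter_upwards [In_dens hD2 (show 0 < d / 4 by positivity), hlim2, eventually_ge_atTop 2]
    with X hX hX2 hX3
  have hX0 : (0 : ℝ) < X := by exact_mod_cast (show 0 < X by omega)
  have h1 := main_ineq hA (σ := σ) X (H X) (M X)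
  have h2 : (Set.ncard {x : ℕ | X ≤ x ∧ x < 2 * X ∧ σ * (x : ℤ) ∈ A} : ℝ) ≤
      (Set.ncard {x : ℕ | X ≤ x ∧ x < 2 * X ∧ NumH σ Aᶜ (H X) x < M X} : ℝ) +
      (Set.ncard {x : ℕ | X ≤ x ∧ x < 2 * X ∧ M X ≤ nm σ (Nat.log 2 (2 * X) / 2) (H X) x} : ℝ) := by
    exact_mod_cast h1
  have h3 := hb σ X (H X) (M X) hσ hX3 (hM X)
  have h4 : C * X * ((H X : ℝ) / M X * Real.sqrt (Real.log (2 * H X) / Real.log X)) ≤ d / 8 * X := by
    calc C * X * ((H X : ℝ) / M X * Real.sqrt (Real.log (2 * H X) / Real.log X))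
        ≤ C * X * (d / (8 * C)) := mul_le_mul_of_nonneg_left hX2.le (by positivity)
      _ = d / 8 * X := by field_simp
  have h5 := (abs_le.1 hX).1
  have h6 : 0 < d * X := by positivity
  linarith

/-- The criterion. -/
theorem few_iff {σ : ℤ} (hσ : |σ| = 1) {A : Set ℤ} (hA : ∀ n, T n ∈ A ↔ n ∈ A) :
    (∀ n ∈ A, ¬ 0 < σ * n) ↔ Few σ Aᶜ := by
  constructor
  · intro h
    refine ⟨fun _ => 1, fun _ => 1, fun _ => le_rfl, ?_, fun ε hε => ?_⟩
    · have h1 : Tendsto (fun X : ℕ => Real.log (2 * ((1 : ℕ) : ℝ)) / Real.log X) atTop (𝓝 0) :=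
        (Real.tendsto_log_atTop.comp tendsto_natCast_atTop_atTop).const_div_atTop _
      have h2 := (Real.continuous_sqrt.tendsto 0).comp h1
      rw [Real.sqrt_zero] at h2
      have h3 := h2.const_mul (((1 : ℕ) : ℝ) / ((1 : ℕ) : ℝ))
      rw [mul_zero] at h3
      exact h3
    · apply Eventually.frequently
      filter_upwards with X
      have h1 : {x : ℕ | X ≤ x ∧ x < 2 * X ∧ NumH σ Aᶜ 1 x < 1} = ∅ := by
        apply Set.eq_empty_of_forall_notMem
        rintro x ⟨_, _, h3⟩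
        have h4 : NumH σ Aᶜ 1 x = 0 := by omega
        unfold NumH at h4
        rw [Set.ncard_eq_zero (fin_blk x 1 _)] at h4
        have h5 : x + 1 ∈ {n : ℕ | x < n ∧ n ≤ x + 1 ∧ σ * (n : ℤ) ∈ Aᶜ} := by
          refine ⟨by omega, le_rfl, fun h6 => h _ h6 ?_⟩
          have h7 : σ * σ = 1 := by
            rw [← abs_mul_abs_self, hσ, one_mul]
          rw [← mul_assoc, h7, one_mul]
          positivity
        rw [h4] at h5
        exact h5
      rw [h1, Set.ncard_empty, Nat.cast_zero]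
      positivity
  · rintro ⟨H, M, hM, hlim, hf⟩ a ha hpos
    obtain ⟨δ, hδ, hev⟩ := many_full hσ hA ha hpos hM hlim
    obtain ⟨X, hX1, hX2⟩ := ((hf δ hδ).and_eventually hev).exists
    exact absurd hX1 (not_le.2 hX2)

end Pool.Agent.LCF
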