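import Mathlib
import Pool.Agent.LC86.Dens
import Pool.Agent.Collatz3.ND

set_option autoImplicit false

/-!
Consequences of the merging of all integers near the points `2 ^ i 3 ^ j x`.
-/

namespace Pool.Agent.LCF

open Filter Topology
open Pool.Agent.Helper14 (T)
open Pool.Agent.LC86

/-- `n` is within `h` of one of the points `2 ^ i 3 ^ j y`, `|i| ≤ J`, `|j| ≤ J`. -/
def Near (J h : ℕ) (y n : ℤ) : Prop :=
  ∃ p q p' q' : ℕ, p ≤ J ∧ q ≤ J ∧ p' ≤ J ∧ q' ≤ J ∧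
    |2 ^ p * 3 ^ q * n - 2 ^ p' * 3 ^ q' * y| ≤ 2 ^ p * 3 ^ q * (h : ℤ)

/-- All integers near the points `2 ^ i 3 ^ j x` merge with `x`. -/
def Latt : Prop :=
  ∃ C : ℝ, 0 < C ∧ ∀ (σ : ℤ) (J X h : ℕ), |σ| = 1 → 2 ≤ X → 1 ≤ h →
    (Set.ncard {x : ℕ | X ≤ x ∧ x < 2 * X ∧
      ∃ n : ℤ, Near J h (σ * (x : ℤ)) n ∧ ∀ k l : ℕ, T^[k] n ≠ T^[l] (σ * (x : ℤ))} : ℝ) ≤
      C * X * ((1 + J + Real.log h) / Real.sqrt (Real.log X))

/-- For some `J = J(X)`, `H = H(X) ≥ 1` with `J + log H = o(sqrt (log X))`, and for `X` in a sequence tending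
to infinity, for all but `o(X)` of the `x` in `[X, 2 X)` there is an `n` in `N` within `H` of one of the points
`2 ^ i 3 ^ j σ x`, `|i| ≤ J`, `|j| ≤ J`. -/
def Dense (σ : ℤ) (N : Set ℤ) : Prop :=
  ∃ J H : ℕ → ℕ, (∀ X, 1 ≤ H X) ∧
    Tendsto (fun X : ℕ => (J X + Real.log (H X)) / Real.sqrt (Real.log X)) atTop (𝓝 0) ∧
    ∀ ε : ℝ, 0 < ε → ∃ᶠ X : ℕ in atTop,
      (Set.ncard {x : ℕ | X ≤ x ∧ x < 2 * X ∧
        ¬ ∃ n ∈ N, Near (J X) (H X) (σ * (x : ℤ)) n} : ℝ) ≤ ε * X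

private theorem fin_X5 (X : ℕ) (P : ℕ → Prop) : {x : ℕ | X ≤ x ∧ x < 2 * X ∧ P x}.Finite :=
  (Set.finite_Iio (2 * X)).subset fun _ hn => hn.2.1

private theorem it_inv2 {A : Set ℤ} (hA : ∀ n, T n ∈ A ↔ n ∈ A) (k : ℕ) :
    ∀ n, T^[k] n ∈ A ↔ n ∈ A := by
  induction k with
  | zero => intro n; rfl
  | succ k ih => intro n; rw [Function.iterate_succ_apply, ih, hA]

private theorem lat_ineq {A : Set ℤ} (hA : ∀ n, T n ∈ A ↔ n ∈ A) {σ : ℤ} (X J H : ℕ) :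
    Set.ncard {x : ℕ | X ≤ x ∧ x < 2 * X ∧ σ * (x : ℤ) ∈ A} ≤
      Set.ncard {x : ℕ | X ≤ x ∧ x < 2 * X ∧ ¬ ∃ n ∈ Aᶜ, Near J H (σ * (x : ℤ)) n} +
      Set.ncard {x : ℕ | X ≤ x ∧ x < 2 * X ∧
        ∃ n : ℤ, Near J H (σ * (x : ℤ)) n ∧ ∀ k l : ℕ, T^[k] n ≠ T^[l] (σ * (x : ℤ))} := by
  refine (Set.ncard_le_ncard ?_ ((fin_X5 X _).union (fin_X5 X _))).trans (Set.ncard_union_le _ _)
  rintro x ⟨hx1, hx2, hx3⟩
  by_cases h : ∃ n : ℤ, Near J H (σ * (x : ℤ)) n ∧ ∀ k l : ℕ, T^[k] n ≠ T^[l] (σ * (x : ℤ))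
  · exact Or.inr ⟨hx1, hx2, h⟩
  · refine Or.inl ⟨hx1, hx2, ?_⟩
    rintro ⟨n, h1, h2⟩
    push Not at h
    obtain ⟨k, l, h3⟩ := h n h2
    apply h1
    rw [← it_inv2 hA k n, h3, it_inv2 hA l]
    exact hx3

/-- A member of sign `σ`: for a positive proportion of the `x` all integers near the points `2 ^ i 3 ^ j x`
are in `A`. -/
theorem many_lat (hL : Latt) {σ : ℤ} (hσ : |σ| = 1) {A : Set ℤ} (hA : ∀ n, T n ∈ A ↔ n ∈ A) {a : ℤ}
    (ha : a ∈ A) (hpos : 0 < σ * a) {J H : ℕ → ℕ} (hH : ∀ X, 1 ≤ H X)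
    (hlim : Tendsto (fun X : ℕ => (J X + Real.log (H X)) / Real.sqrt (Real.log X)) atTop (𝓝 0)) :
    ∃ δ : ℝ, 0 < δ ∧ ∀ᶠ X : ℕ in atTop,
      δ * X < (Set.ncard {x : ℕ | X ≤ x ∧ x < 2 * X ∧
        ¬ ∃ n ∈ Aᶜ, Near (J X) (H X) (σ * (x : ℤ)) n} : ℝ) := by
  obtain ⟨c, hc, hN⟩ := Pool.Agent.Collatz3.ND.main
  obtain ⟨D, g1, -, -, -, g5, -⟩ := hN σ hσ
  obtain ⟨C, hC, hb⟩ := hL
  have hd0 := g5 A hA a ha hpos
  have ha0 : 0 < |(a : ℝ)| := by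
    rw [abs_pos]
    intro h6
    have h7 : a = 0 := by exact_mod_cast h6
    rw [h7, mul_zero] at hpos
    exact lt_irrefl _ hpos
  obtain ⟨d, hd⟩ : ∃ d, d = D A := ⟨_, rfl⟩
  rw [← hd] at hd0
  have hdpos : 0 < d := lt_of_lt_of_le (by positivity) hd0
  have hD1 := (g1 0 A (fun n _ => hA n)).tendsto
  have hD2 : Tendsto (fun x : ℝ => (Set.ncard {m : ℕ | (m : ℝ) ≤ x ∧ σ * (m : ℤ) ∈ A} : ℝ) / x)
      atTop (𝓝 d) := by
    rw [hd]
    exact hD1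
  refine ⟨d / 4, by positivity, ?_⟩
  have hs : Tendsto (fun X : ℕ => 1 / Real.sqrt (Real.log X)) atTop (𝓝 0) := by
    have h1 : Tendsto (fun X : ℕ => Real.sqrt (Real.log X)) atTop atTop :=
      Real.tendsto_sqrt_atTop.comp (Real.tendsto_log_atTop.comp tendsto_natCast_atTop_atTop)
    exact h1.const_div_atTop 1
  have hlim2 : ∀ᶠ X : ℕ in atTop,
      (1 + J X + Real.log (H X)) / Real.sqrt (Real.log X) < d / (8 * C) := by
    have h1 := hs.add hlim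
    rw [add_zero] at h1
    have h2 : (fun X : ℕ => 1 / Real.sqrt (Real.log X) +
        (J X + Real.log (H X)) / Real.sqrt (Real.log X)) =
        fun X : ℕ => (1 + J X + Real.log (H X)) / Real.sqrt (Real.log X) := by
      funext X
      rw [← add_div, add_assoc]
    rw [h2] at h1
    exact h1.eventually_lt_const (by positivity)
  filter_upwards [In_dens hD2 (show 0 < d / 4 by positivity), hlim2, eventually_ge_atTop 2]
    with X hX hX2 hX3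
  have hX0 : (0 : ℝ) < X := by exact_mod_cast (show 0 < X by omega)
  have h1 := lat_ineq hA (σ := σ) X (J X) (H X)
  have h2 : (Set.ncard {x : ℕ | X ≤ x ∧ x < 2 * X ∧ σ * (x : ℤ) ∈ A} : ℝ) ≤
      (Set.ncard {x : ℕ | X ≤ x ∧ x < 2 * X ∧
        ¬ ∃ n ∈ Aᶜ, Near (J X) (H X) (σ * (x : ℤ)) n} : ℝ) +
      (Set.ncard {x : ℕ | X ≤ x ∧ x < 2 * X ∧
        ∃ n : ℤ, Near (J X) (H X) (σ * (x : ℤ)) n ∧
          ∀ k l : ℕ, T^[k] n ≠ T^[l] (σ * (x : ℤ))} : ℝ) := by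
    exact_mod_cast h1
  have h3 := hb σ (J X) X (H X) hσ hX3 (hH X)
  have h4 : C * X * ((1 + J X + Real.log (H X)) / Real.sqrt (Real.log X)) ≤ d / 8 * X := by
    calc C * X * ((1 + J X + Real.log (H X)) / Real.sqrt (Real.log X))
        ≤ C * X * (d / (8 * C)) := mul_le_mul_of_nonneg_left hX2.le (by positivity)
      _ = d / 8 * X := by field_simp
  have h5 := (abs_le.1 hX).1
  have h6 : 0 < d * X := by positivity
  linarith

/-- The criterion. -/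
theorem dense_iff (hL : Latt) {σ : ℤ} (hσ : |σ| = 1) {A : Set ℤ} (hA : ∀ n, T n ∈ A ↔ n ∈ A) :
    (∀ n ∈ A, ¬ 0 < σ * n) ↔ Dense σ Aᶜ := by
  constructor
  · intro h
    refine ⟨fun _ => 0, fun _ => 1, fun _ => le_rfl, ?_, fun ε hε => ?_⟩
    · simp
    · apply Eventually.frequently
      filter_upwards [eventually_ge_atTop 1] with X hX
      have h1 : {x : ℕ | X ≤ x ∧ x < 2 * X ∧
          ¬ ∃ n ∈ Aᶜ, Near 0 1 (σ * (x : ℤ)) n} = ∅ := by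
        apply Set.eq_empty_of_forall_notMem
        rintro x ⟨hx, _, h3⟩
        apply h3
        refine ⟨σ * (x : ℤ), fun h6 => h _ h6 ?_, 0, 0, 0, 0, le_rfl, le_rfl, le_rfl, le_rfl, ?_⟩
        · have h7 : σ * σ = 1 := by
            rw [← abs_mul_abs_self, hσ, one_mul]
          rw [← mul_assoc, h7, one_mul]
          exact_mod_cast (show 0 < x by omega)
        · simp
      rw [h1, Set.ncard_empty, Nat.cast_zero]
      positivity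
  · rintro ⟨J, H, hH, hlim, hf⟩ a ha hpos
    obtain ⟨δ, hδ, hev⟩ := many_lat hL hσ hA ha hpos hH hlim
    obtain ⟨X, hX1, hX2⟩ := ((hf δ hδ).and_eventually hev).exists
    exact absurd hX1 (not_le.2 hX2)

end Pool.Agent.LCF
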