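import Mathlib
import Pool.Agent.LC86.Unif
import Pool.Agent.RTE.St

set_option autoImplicit false

/-!
The sharp local 0-1 law with explicit rates, for all block lengths, uniform in the set.
-/

namespace Pool.Agent.LCF

open Filter Topology
open Pool.Agent.Helper14 (T)
open Pool.Agent.Helper86.CollatzChain
open Pool.Agent.LC86
open Pool.Agent.Collatz3.DN (EvInv iter_mem)

private theorem fin_X2 (X : ℕ) (P : ℕ → Prop) : {x : ℕ | X ≤ x ∧ x < 2 * X ∧ P x}.Finite :=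
  (Set.finite_Iio (2 * X)).subset fun _ hn => hn.2.1

theorem gen_le : ∃ C : ℝ, 0 < C ∧ ∀ (σ : ℤ) (X h : ℕ) (η : ℝ), |σ| = 1 → 2 ≤ X → 1 ≤ h → 0 < η →
    ∀ P : ℕ → ℕ → Prop, (∀ x b : ℕ, X ≤ x →
      w (Nat.log 2 (2 * X) / 2) (0, σ * (b : ℤ)) (σ * (x : ℤ)) = 0 → ¬ P x (x + b)) →
    (Set.ncard {x : ℕ | X ≤ x ∧ x < 2 * X ∧ η * (h : ℝ) <
      (Set.ncard {n : ℕ | x < n ∧ n ≤ x + h ∧ P x n} : ℝ)} : ℝ) ≤
      C / η * X * Real.sqrt (Real.log (2 * h) / Real.log X) := by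
  classical
  obtain ⟨C, hC, hm⟩ := markov
  refine ⟨4 * C, by positivity, fun σ X h η hσ hX hh hη P hP => ?_⟩
  have hX1 : (1 : ℝ) < X := by exact_mod_cast (show 1 < X by omega)
  have hX0 : (0 : ℝ) < X := by linarith
  have hlog : 0 < Real.log X := Real.log_pos hX1
  have hH0 : (0 : ℝ) < h := by exact_mod_cast hh
  have hH1 : (1 : ℝ) ≤ h := by exact_mod_cast hh
  have h1 := hm σ (2 * X) h η hσ (by omega) hh hη
  have h2 : Set.ncard {x : ℕ | X ≤ x ∧ x < 2 * X ∧ η * (h : ℝ) <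
      (Set.ncard {n : ℕ | x < n ∧ n ≤ x + h ∧ P x n} : ℝ)} ≤
      ((Finset.range (2 * X + 1)).filter
      fun x => η * h < (nm σ (Nat.log 2 (2 * X) / 2) h x : ℝ)).card := by
    rw [← Set.ncard_coe_finset]
    apply Set.ncard_le_ncard _ (Finset.finite_toSet _)
    rintro x ⟨hx1, hx2, hx3⟩
    rw [Finset.mem_coe, Finset.mem_filter, Finset.mem_range]
    refine ⟨by omega, lt_of_lt_of_le hx3 ?_⟩
    exact_mod_cast win_leH (σ := σ) (k := Nat.log 2 (2 * X) / 2) (h := h)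
      (x := x) (P := P x) (fun b hb => hP x b hx1 hb)
  have h3 : (Set.ncard {x : ℕ | X ≤ x ∧ x < 2 * X ∧ η * (h : ℝ) <
      (Set.ncard {n : ℕ | x < n ∧ n ≤ x + h ∧ P x n} : ℝ)} : ℝ) ≤
      C / η * ((2 * X : ℕ) : ℝ) * Real.sqrt ((1 + Real.log h) / Real.log ((2 * X : ℕ) : ℝ)) := by
    refine le_trans ?_ h1
    exact_mod_cast h2
  refine h3.trans ?_
  have h4 : Real.sqrt ((1 + Real.log h) / Real.log ((2 * X : ℕ) : ℝ)) ≤
      2 * Real.sqrt (Real.log (2 * h) / Real.log X) := by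
    have h5 : (2 : ℝ) * Real.sqrt (Real.log (2 * h) / Real.log X) =
        Real.sqrt (4 * (Real.log (2 * h) / Real.log X)) := by
      rw [Real.sqrt_mul (by norm_num)]
      have : Real.sqrt 4 = 2 := by
        rw [show (4 : ℝ) = 2 ^ 2 by norm_num, Real.sqrt_sq (by norm_num)]
      rw [this]
    rw [h5]
    apply Real.sqrt_le_sqrt
    have h6 : Real.log X ≤ Real.log ((2 * X : ℕ) : ℝ) := by
      apply Real.log_le_log hX0
      push_cast
      linarith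
    have h7 : 1 + Real.log h ≤ 4 * Real.log (2 * h) := by
      rw [Real.log_mul (by norm_num) hH0.ne']
      have := Real.log_two_gt_d9
      have := Real.log_nonneg hH1
      linarith
    have h8 : 0 ≤ 1 + Real.log h := by
      have := Real.log_nonneg hH1
      linarith
    rw [mul_div_assoc']
    exact div_le_div₀ (by linarith) h7 hlog h6
  have h9 : (0 : ℝ) ≤ C / η * ((2 * X : ℕ) : ℝ) := by positivity
  refine (mul_le_mul_of_nonneg_left h4 h9).trans (le_of_eq ?_)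
  push_cast
  ring

/-- Merging inside the blocks. -/
theorem apart_le : ∃ C : ℝ, 0 < C ∧ ∀ (σ : ℤ) (X h : ℕ) (η : ℝ), |σ| = 1 → 2 ≤ X → 1 ≤ h → 0 < η →
    (Set.ncard {x : ℕ | X ≤ x ∧ x < 2 * X ∧ η * (h : ℝ) < (ApartH σ h x : ℝ)} : ℝ) ≤
      C / η * X * Real.sqrt (Real.log (2 * h) / Real.log X) := by
  obtain ⟨C, hC, hg⟩ := gen_le
  refine ⟨C, hC, fun σ X h η hσ hX hh hη => ?_⟩
  apply hg σ X h η hσ hX hh hη fun x n => ¬ ∃ k : ℕ, T^[k] (σ * (x : ℤ)) = T^[k] (σ * (n : ℤ))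
  intro x b _ hw
  rw [not_not]
  exact ⟨_, merge_of_w hw⟩

/-- The block is on one side of `A`. -/
theorem diff_le : ∃ C : ℝ, 0 < C ∧ ∀ (σ : ℤ) (K : ℕ) (A : Set ℤ) (X h : ℕ) (η : ℝ), |σ| = 1 →
    EvInv K A → 2 * K ^ 2 < X → 2 ≤ X → 1 ≤ h → 0 < η →
    (Set.ncard {x : ℕ | X ≤ x ∧ x < 2 * X ∧ η * (h : ℝ) < (DiffH σ A h x : ℝ)} : ℝ) ≤
      C / η * X * Real.sqrt (Real.log (2 * h) / Real.log X) := by
  obtain ⟨C, hC, hg⟩ := gen_le
  refine ⟨C, hC, fun σ K A X h η hσ hA hK hX hh hη => ?_⟩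
  apply hg σ X h η hσ hX hh hη fun x n => ¬ (σ * (n : ℤ) ∈ A ↔ σ * (x : ℤ) ∈ A)
  intro x b hx hw
  rw [not_not]
  obtain ⟨k, hk⟩ : ∃ k, k = Nat.log 2 (2 * X) / 2 := ⟨_, rfl⟩
  rw [← hk] at hw
  have h2 : (2 ^ k) ^ 2 ≤ 2 * X := by
    rw [← pow_mul]
    refine (Nat.pow_le_pow_right (by norm_num) (show k * 2 ≤ Nat.log 2 (2 * X) by omega)).trans ?_
    exact Nat.pow_log_le_self 2 (by omega)
  have h3 : K * 2 ^ k < X := by
    by_contra h4
    push Not at h4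
    have h5 : X ^ 2 ≤ (K * 2 ^ k) ^ 2 := Nat.pow_le_pow_left h4 2
    have h6 : (K * 2 ^ k) ^ 2 ≤ K ^ 2 * (2 * X) := by
      rw [mul_pow]
      exact Nat.mul_le_mul_left _ h2
    have h7 : K ^ 2 * (2 * X) < X ^ 2 := by
      have h8 : K ^ 2 * (2 * X) = (2 * K ^ 2) * X := by ring
      rw [h8, sq X]
      exact Nat.mul_lt_mul_of_pos_right hK (by omega)
    omega
  have h4 : ∀ y : ℕ, X ≤ y → (K : ℤ) * 2 ^ k < |σ * (y : ℤ)| := by
    intro y hy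
    rw [abs_mul, hσ, one_mul, Nat.abs_cast]
    exact_mod_cast lt_of_lt_of_le h3 hy
  rw [← iter_mem hA k _ (h4 (x + b) (by omega)), ← iter_mem hA k _ (h4 x hx), merge_of_w hw]

/-- Full blocks and members of `A`. -/
theorem num_le : ∃ C : ℝ, 0 < C ∧ ∀ (σ : ℤ) (K : ℕ) (A : Set ℤ) (X h : ℕ) (η : ℝ), |σ| = 1 →
    EvInv K A → 2 * K ^ 2 < X → 2 ≤ X → 1 ≤ h → 0 < η → η ≤ 1 / 2 →
    |(Set.ncard {x : ℕ | X ≤ x ∧ x < 2 * X ∧ (NumH σ Aᶜ h x : ℝ) ≤ η * (h : ℝ)} : ℝ) -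
      Set.ncard {x : ℕ | X ≤ x ∧ x < 2 * X ∧ σ * (x : ℤ) ∈ A}| ≤
      C / η * X * Real.sqrt (Real.log (2 * h) / Real.log X) := by
  obtain ⟨C, hC, hd⟩ := diff_le
  refine ⟨C * 2, by positivity, fun σ K A X h η hσ hA hK hX hh hη hη2 => ?_⟩
  have hh0 : (0 : ℝ) < h := by exact_mod_cast hh
  have h2 := hd σ K A X h (η / 2) hσ hA hK hX hh (by positivity)
  have h3 : Set.ncard {x : ℕ | X ≤ x ∧ x < 2 * X ∧ σ * (x : ℤ) ∈ A} ≤
      Set.ncard {x : ℕ | X ≤ x ∧ x < 2 * X ∧ (NumH σ Aᶜ h x : ℝ) ≤ η * (h : ℝ)} +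
      Set.ncard {x : ℕ | X ≤ x ∧ x < 2 * X ∧ η / 2 * (h : ℝ) < (DiffH σ A h x : ℝ)} := by
    refine (Set.ncard_le_ncard ?_ ((fin_X2 X _).union (fin_X2 X _))).trans (Set.ncard_union_le _ _)
    rintro x ⟨hx1, hx2, hx3⟩
    by_cases hc : η / 2 * (h : ℝ) < (DiffH σ A h x : ℝ)
    · exact Or.inr ⟨hx1, hx2, hc⟩
    · refine Or.inl ⟨hx1, hx2, ?_⟩
      have e1 : (NumH σ Aᶜ h x : ℝ) ≤ DiffH σ A h x := by exact_mod_cast numH_le_diff hx3
      refine e1.trans ((not_lt.1 hc).trans ?_)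
      exact mul_le_mul_of_nonneg_right (by linarith) hh0.le
  have h4 : Set.ncard {x : ℕ | X ≤ x ∧ x < 2 * X ∧ (NumH σ Aᶜ h x : ℝ) ≤ η * (h : ℝ)} ≤
      Set.ncard {x : ℕ | X ≤ x ∧ x < 2 * X ∧ σ * (x : ℤ) ∈ A} +
      Set.ncard {x : ℕ | X ≤ x ∧ x < 2 * X ∧ η / 2 * (h : ℝ) < (DiffH σ A h x : ℝ)} := by
    refine (Set.ncard_le_ncard ?_ ((fin_X2 X _).union (fin_X2 X _))).trans (Set.ncard_union_le _ _)
    rintro x ⟨hx1, hx2, hx3⟩
    by_cases hin : σ * (x : ℤ) ∈ A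
    · exact Or.inl ⟨hx1, hx2, hin⟩
    · refine Or.inr ⟨hx1, hx2, ?_⟩
      by_contra hc
      have e1 : (NumH σ A h x : ℝ) ≤ DiffH σ A h x := by exact_mod_cast numH_le_diff' hin
      have e2 : (h : ℝ) ≤ (NumH σ A h x : ℝ) + NumH σ Aᶜ h x := by
        exact_mod_cast blkH_card σ A h x
      rw [not_lt] at hc
      nlinarith
  have h5 : (Set.ncard {x : ℕ | X ≤ x ∧ x < 2 * X ∧ σ * (x : ℤ) ∈ A} : ℝ) ≤
      (Set.ncard {x : ℕ | X ≤ x ∧ x < 2 * X ∧ (NumH σ Aᶜ h x : ℝ) ≤ η * (h : ℝ)} : ℝ) +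
      (Set.ncard {x : ℕ | X ≤ x ∧ x < 2 * X ∧ η / 2 * (h : ℝ) < (DiffH σ A h x : ℝ)} : ℝ) := by
    exact_mod_cast h3
  have h6 : (Set.ncard {x : ℕ | X ≤ x ∧ x < 2 * X ∧ (NumH σ Aᶜ h x : ℝ) ≤ η * (h : ℝ)} : ℝ) ≤
      (Set.ncard {x : ℕ | X ≤ x ∧ x < 2 * X ∧ σ * (x : ℤ) ∈ A} : ℝ) +
      (Set.ncard {x : ℕ | X ≤ x ∧ x < 2 * X ∧ η / 2 * (h : ℝ) < (DiffH σ A h x : ℝ)} : ℝ) := by
    exact_mod_cast h4
  have h7 : C / (η / 2) * X * Real.sqrt (Real.log (2 * h) / Real.log X) =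
      C * 2 / η * X * Real.sqrt (Real.log (2 * h) / Real.log X) := by
    field_simp
  rw [h7] at h2
  rw [abs_le]
  constructor <;> linarith

open Pool.Agent.SLD (N) in
/-- The members of `A` in `[X, 2X)`. -/
theorem in_N (σ : ℤ) (hσ : |σ| = 1) (A : Set ℤ) (X : ℕ) :
    |(Set.ncard {x : ℕ | X ≤ x ∧ x < 2 * X ∧ σ * (x : ℤ) ∈ A} : ℝ) -
      ((N σ A (2 * X) 1 0 : ℝ) - N σ A X 1 0)| ≤ 1 := by
  classical
  have hσ2 : σ * σ = 1 := by rw [← abs_mul_abs_self, hσ, one_mul]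
  have key : ∀ Y : ℕ, N σ A Y 1 0 =
      ((Finset.Icc 1 Y).filter fun m : ℕ => σ * (m : ℤ) ∈ A).card := by
    intro Y
    unfold Pool.Agent.SLD.N
    rw [← Set.ncard_coe_finset]
    symm
    apply Set.ncard_congr (fun (m : ℕ) _ => σ * (m : ℤ))
    · intro m hm
      rw [Finset.mem_coe, Finset.mem_filter, Finset.mem_Icc] at hm
      refine ⟨?_, ?_, by simp, hm.2⟩
      · rw [← mul_assoc, hσ2, one_mul]
        exact_mod_cast hm.1.1
      · rw [← mul_assoc, hσ2, one_mul]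
        exact_mod_cast hm.1.2
    · intro m n _ _ hmn
      have h1 : σ * (σ * (m : ℤ)) = σ * (σ * (n : ℤ)) := by rw [hmn]
      rw [← mul_assoc, ← mul_assoc, hσ2, one_mul, one_mul] at h1
      exact_mod_cast h1
    · rintro n ⟨h1, h2, _, h4⟩
      refine ⟨(σ * n).toNat, ?_, ?_⟩
      · have e : (((σ * n).toNat : ℕ) : ℤ) = σ * n := Int.toNat_of_nonneg (by omega)
        rw [Finset.mem_coe, Finset.mem_filter, Finset.mem_Icc]
        refine ⟨⟨by omega, by omega⟩, ?_⟩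
        rw [e, ← mul_assoc, hσ2, one_mul]
        exact h4
      · have e : (((σ * n).toNat : ℕ) : ℤ) = σ * n := Int.toNat_of_nonneg (by omega)
        rw [e, ← mul_assoc, hσ2, one_mul]
  rw [key, key]
  have e1 : {x : ℕ | X ≤ x ∧ x < 2 * X ∧ σ * (x : ℤ) ∈ A} =
      (((Finset.Ico X (2 * X)).filter fun m : ℕ => σ * (m : ℤ) ∈ A : Finset ℕ) : Set ℕ) := by
    ext m
    simp only [Set.mem_ofPred_eq, Finset.coe_filter, Finset.mem_Ico, and_assoc]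
  rw [e1, Set.ncard_coe_finset]
  have h1 : ((Finset.Icc 1 (2 * X)).filter fun m : ℕ => σ * (m : ℤ) ∈ A).card ≤
      ((Finset.Icc 1 X).filter fun m : ℕ => σ * (m : ℤ) ∈ A).card +
      ((Finset.Ico X (2 * X)).filter fun m : ℕ => σ * (m : ℤ) ∈ A).card + 1 := by
    have h2 : ((Finset.Icc 1 (2 * X)).filter fun m : ℕ => σ * (m : ℤ) ∈ A) ⊆
        ((Finset.Icc 1 X).filter fun m : ℕ => σ * (m : ℤ) ∈ A) ∪
        (((Finset.Ico X (2 * X)).filter fun m : ℕ => σ * (m : ℤ) ∈ A) ∪ {2 * X}) := by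
      intro m hm
      rw [Finset.mem_filter, Finset.mem_Icc] at hm
      rw [Finset.mem_union, Finset.mem_union, Finset.mem_filter, Finset.mem_filter,
        Finset.mem_singleton, Finset.mem_Icc, Finset.mem_Ico]
      by_cases h : m ≤ X
      · exact Or.inl ⟨⟨hm.1.1, h⟩, hm.2⟩
      · by_cases h' : m = 2 * X
        · exact Or.inr (Or.inr h')
        · exact Or.inr (Or.inl ⟨⟨by omega, by omega⟩, hm.2⟩)
    have h3 := Finset.card_le_card h2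
    have h4 := Finset.card_union_le ((Finset.Icc 1 X).filter fun m : ℕ => σ * (m : ℤ) ∈ A)
      (((Finset.Ico X (2 * X)).filter fun m : ℕ => σ * (m : ℤ) ∈ A) ∪ {2 * X})
    have h5 := Finset.card_union_le ((Finset.Ico X (2 * X)).filter fun m : ℕ => σ * (m : ℤ) ∈ A)
      {2 * X}
    rw [Finset.card_singleton] at h5
    omega
  have h2 : ((Finset.Icc 1 X).filter fun m : ℕ => σ * (m : ℤ) ∈ A).card +
      ((Finset.Ico X (2 * X)).filter fun m : ℕ => σ * (m : ℤ) ∈ A).card ≤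
      ((Finset.Icc 1 (2 * X)).filter fun m : ℕ => σ * (m : ℤ) ∈ A).card + 1 := by
    have h3 : ((Finset.Ico X (2 * X)).filter fun m : ℕ => σ * (m : ℤ) ∈ A) ⊆
        ((Finset.Ioo X (2 * X)).filter fun m : ℕ => σ * (m : ℤ) ∈ A) ∪ {X} := by
      intro m hm
      rw [Finset.mem_filter, Finset.mem_Ico] at hm
      rw [Finset.mem_union, Finset.mem_filter, Finset.mem_singleton, Finset.mem_Ioo]
      by_cases h : m = X
      · exact Or.inr h
      · exact Or.inl ⟨⟨by omega, by omega⟩, hm.2⟩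
    have h4 : Disjoint ((Finset.Icc 1 X).filter fun m : ℕ => σ * (m : ℤ) ∈ A)
        ((Finset.Ioo X (2 * X)).filter fun m : ℕ => σ * (m : ℤ) ∈ A) := by
      rw [Finset.disjoint_left]
      intro m g1 g2
      rw [Finset.mem_filter, Finset.mem_Icc] at g1
      rw [Finset.mem_filter, Finset.mem_Ioo] at g2
      omega
    have h5 : ((Finset.Icc 1 X).filter fun m : ℕ => σ * (m : ℤ) ∈ A) ∪
        ((Finset.Ioo X (2 * X)).filter fun m : ℕ => σ * (m : ℤ) ∈ A) ⊆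
        ((Finset.Icc 1 (2 * X)).filter fun m : ℕ => σ * (m : ℤ) ∈ A) := by
      intro m hm
      rw [Finset.mem_union, Finset.mem_filter, Finset.mem_filter, Finset.mem_Icc,
        Finset.mem_Ioo] at hm
      rw [Finset.mem_filter, Finset.mem_Icc]
      rcases hm with hm | hm
      · exact ⟨⟨hm.1.1, by omega⟩, hm.2⟩
      · exact ⟨⟨by omega, by omega⟩, hm.2⟩
    have h6 := Finset.card_le_card h5
    rw [Finset.card_union_of_disjoint h4] at h6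
    have h7 := (Finset.card_le_card h3).trans (Finset.card_union_le _ _)
    rw [Finset.card_singleton] at h7
    omega
  have h3 : (((Finset.Icc 1 (2 * X)).filter fun m : ℕ => σ * (m : ℤ) ∈ A).card : ℝ) ≤
      ((Finset.Icc 1 X).filter fun m : ℕ => σ * (m : ℤ) ∈ A).card +
      ((Finset.Ico X (2 * X)).filter fun m : ℕ => σ * (m : ℤ) ∈ A).card + 1 := by exact_mod_cast h1
  have h4 : (((Finset.Icc 1 X).filter fun m : ℕ => σ * (m : ℤ) ∈ A).card : ℝ) +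
      ((Finset.Ico X (2 * X)).filter fun m : ℕ => σ * (m : ℤ) ∈ A).card ≤
      ((Finset.Icc 1 (2 * X)).filter fun m : ℕ => σ * (m : ℤ) ∈ A).card + 1 := by exact_mod_cast h2
  rw [abs_le]
  constructor <;> linarith

end Pool.Agent.LCF
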