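import Mathlib
import Pool.Agent.LCF.Law
import Pool.Agent.RTE.StX
import Pool.Agent.SLD.Conv

set_option autoImplicit false

/-!
The sharp local 0-1 law with explicit rates and the density with a rate.
-/

namespace Pool.Agent.LCF

open Filter Topology
open Pool.Agent.LC86
open Pool.Agent.SLD (N)

private theorem d_bound {σ : ℤ} (hσ : |σ| = 1) {A : Set ℤ} {d : ℝ}
    (hd : Tendsto (fun Y : ℕ => (N σ A Y 1 0 : ℝ) / Y) atTop (𝓝 d)) : 0 ≤ d ∧ d ≤ 1 := by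
  have h1 : ∀ Y : ℕ, (N σ A Y 1 0 : ℝ) ≤ Y := by
    intro Y
    have hσ2 : σ * σ = 1 := by rw [← abs_mul_abs_self, hσ, one_mul]
    have h2 : N σ A Y 1 0 ≤ Y := by
      unfold Pool.Agent.SLD.N
      have h3 : Set.ncard {n : ℤ | 1 ≤ σ * n ∧ σ * n ≤ Y ∧ ((1 : ℕ) : ℤ) ∣ n - 0 ∧ n ∈ A} ≤
          ((Finset.Icc (1 : ℤ) Y : Finset ℤ) : Set ℤ).ncard := by
        apply Set.ncard_le_ncard_of_injOn (fun n : ℤ => σ * n) (ht := Finset.finite_toSet _)
        · rintro n ⟨a1, a2, _, _⟩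
          rw [Finset.mem_coe, Finset.mem_Icc]
          exact ⟨a1, a2⟩
        · intro m _ n _ hmn
          have h1 : σ * (σ * m) = σ * (σ * n) := by
            simp only at hmn
            rw [hmn]
          rw [← mul_assoc, ← mul_assoc, hσ2, one_mul, one_mul] at h1
          exact h1
      rw [Set.ncard_coe_finset, Int.card_Icc] at h3
      refine h3.trans (le_of_eq ?_)
      omega
    exact_mod_cast h2
  constructor
  · exact ge_of_tendsto' hd fun Y => by positivity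
  · refine le_of_tendsto' hd fun Y => ?_
    rcases Nat.eq_zero_or_pos Y with h0 | h0
    · subst h0
      simp
    · have h3 : (0 : ℝ) < Y := by exact_mod_cast h0
      rw [div_le_one h3]
      exact h1 Y

/-- The 0-1 law with rates. -/
theorem law {c : ℝ} (hc0 : 0 < c) (hc1 : c ≤ 1) (hQ : Pool.Agent.RTE.ALQc c) :
    ∃ δ C : ℝ, 0 < δ ∧ 0 < C ∧ ∀ (σ : ℤ) (K : ℕ) (A : Set ℤ) (d : ℝ) (X h : ℕ) (η : ℝ), |σ| = 1 →
      Pool.Agent.SLD.EvInv K A → Tendsto (fun Y : ℕ => (N σ A Y 1 0 : ℝ) / Y) atTop (𝓝 d) →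
      2 ≤ X → (K : ℝ) ≤ (X : ℝ) ^ δ → 1 ≤ h → 0 < η → η ≤ 1 / 2 →
      |(Set.ncard {x : ℕ | X ≤ x ∧ x < 2 * X ∧ (NumH σ Aᶜ h x : ℝ) ≤ η * (h : ℝ)} : ℝ) - d * X| ≤
        C * X * (Real.sqrt (Real.log (2 * h) / Real.log X) / η + 1 / Real.log X ^ c) := by
  obtain ⟨δ₁, C₁, hδ₁, hC₁, hR⟩ := hQ
  obtain ⟨C₂, hC₂, hL⟩ := num_le
  obtain ⟨δ, hδ⟩ : ∃ δ : ℝ, δ = min δ₁ (1 / 4) := ⟨_, rfl⟩
  have hδ0 : 0 < δ := by rw [hδ]; exact lt_min hδ₁ (by norm_num)
  have hδ1 : δ ≤ δ₁ := by rw [hδ]; exact min_le_left _ _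
  have hδ4 : δ ≤ 1 / 4 := by rw [hδ]; exact min_le_right _ _
  refine ⟨δ, C₂ + 3 * C₁ + 8, hδ0, by positivity, ?_⟩
  intro σ K A d X h η hσ hA hd hX hK hh hη hη2
  have hσ' : σ = 1 ∨ σ = -1 := Pool.Agent.SLD.conv_sign hσ
  have hX1 : (1 : ℝ) < X := by exact_mod_cast (show 1 < X by omega)
  have hX0 : (0 : ℝ) < X := by linarith
  have hlog : 0 < Real.log X := Real.log_pos hX1
  obtain ⟨d0, d1⟩ := d_bound hσ hd
  obtain ⟨s, hs⟩ : ∃ s : ℝ, s = Real.sqrt (Real.log (2 * h) / Real.log X) / η := ⟨_, rfl⟩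
  have hs0 : 0 ≤ s := by rw [hs]; positivity
  obtain ⟨l, hl⟩ : ∃ l : ℝ, l = Real.log X ^ c := ⟨_, rfl⟩
  have hl0 : 0 < l := by rw [hl]; exact Real.rpow_pos_of_pos hlog c
  have hlX : l ≤ X := by
    have h1 : Real.log X ≤ X := Real.log_le_self hX0.le
    rcases le_total (Real.log X) 1 with h2 | h2
    · have h3 : l ≤ 1 := by
        rw [hl]
        exact Real.rpow_le_one hlog.le h2 hc0.le
      linarith
    · have h3 : l ≤ Real.log X ^ (1 : ℝ) := by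
        rw [hl]
        exact Real.rpow_le_rpow_of_exponent_le h2 hc1
      rw [Real.rpow_one] at h3
      linarith
  rw [← hs, ← hl]
  have hXl : 1 ≤ X * (1 / l) := by
    rw [mul_one_div, one_le_div hl0]
    exact hlX
  rcases Nat.lt_or_ge X 5 with h5 | h5
  · -- small X
    have h1 : (Set.ncard {x : ℕ | X ≤ x ∧ x < 2 * X ∧ (NumH σ Aᶜ h x : ℝ) ≤ η * (h : ℝ)} : ℝ) ≤ X := by
      have h2 : Set.ncard {x : ℕ | X ≤ x ∧ x < 2 * X ∧ (NumH σ Aᶜ h x : ℝ) ≤ η * (h : ℝ)} ≤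
          ((Finset.Ico X (2 * X) : Finset ℕ) : Set ℕ).ncard := by
        apply Set.ncard_le_ncard _ (Finset.finite_toSet _)
        rintro x ⟨a1, a2, _⟩
        rw [Finset.mem_coe, Finset.mem_Ico]
        exact ⟨a1, a2⟩
      rw [Set.ncard_coe_finset, Nat.card_Ico] at h2
      have h3 : 2 * X - X = X := by omega
      rw [h3] at h2
      exact_mod_cast h2
    have h2 : (0 : ℝ) ≤ Set.ncard {x : ℕ | X ≤ x ∧ x < 2 * X ∧ (NumH σ Aᶜ h x : ℝ) ≤ η * (h : ℝ)} :=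
      Nat.cast_nonneg _
    have h3 : (X : ℝ) ≤ 4 := by exact_mod_cast (show X ≤ 4 by omega)
    have h4 : d * X ≤ X := mul_le_of_le_one_left hX0.le d1
    have h6 : 0 ≤ d * X := by positivity
    have h7 : (X : ℝ) ≤ 8 * (X * (1 / l)) := by linarith
    have h8 : (C₂ + 3 * C₁ + 8) * X * (s + 1 / l) =
        (C₂ + 3 * C₁) * (X * (s + 1 / l)) + 8 * (X * s) + 8 * (X * (1 / l)) := by ring
    have h9 : 0 ≤ (C₂ + 3 * C₁) * (X * (s + 1 / l)) := by positivity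
    have h10 : 0 ≤ 8 * (X * s) := by positivity
    rw [h8, abs_le]
    constructor <;> linarith
  · have hK4 : (K : ℝ) ≤ (X : ℝ) ^ ((1 : ℝ) / 4) :=
      hK.trans (Real.rpow_le_rpow_of_exponent_le hX1.le hδ4)
    have hK2 : 2 * K ^ 2 < X := by
      have h1 : ((K : ℝ) ^ 2) ^ 2 ≤ X := by
        have h2 : ((K : ℝ) ^ 4) ≤ ((X : ℝ) ^ ((1 : ℝ) / 4)) ^ 4 :=
          pow_le_pow_left₀ (Nat.cast_nonneg _) hK4 4
        have h3 : ((X : ℝ) ^ ((1 : ℝ) / 4)) ^ 4 = X := by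
          rw [← Real.rpow_natCast, ← Real.rpow_mul hX0.le]
          norm_num
        rw [h3] at h2
        have h4 : ((K : ℝ) ^ 2) ^ 2 = (K : ℝ) ^ 4 := by ring
        rw [h4]
        exact h2
      have h2 : (K ^ 2) ^ 2 ≤ X := by exact_mod_cast h1
      by_contra h3
      push Not at h3
      have h4 : 5 ≤ 2 * K ^ 2 := h5.trans h3
      have h6 : 3 ≤ K ^ 2 := by omega
      have h7 : 2 * K ^ 2 < (K ^ 2) ^ 2 := by nlinarith
      omega
    have e1 := hL σ K A X h η hσ hA hK2 hX hh hη hη2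
    have e2 := in_N σ hσ A X
    have e3 := hR σ K A d hσ' hA hd X 1 0 hX (hK.trans (Real.rpow_le_rpow_of_exponent_le hX1.le hδ1))
      le_rfl (by
        rw [Nat.cast_one]
        exact Real.one_le_rpow hX1.le hδ₁.le)
    have hX2 : (X : ℝ) ≤ ((2 * X : ℕ) : ℝ) := by
      push_cast
      linarith
    have e4 := hR σ K A d hσ' hA hd (2 * X) 1 0 (by omega)
      ((hK.trans (Real.rpow_le_rpow_of_exponent_le hX1.le hδ1)).trans
        (Real.rpow_le_rpow hX0.le hX2 hδ₁.le))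
      le_rfl (by
        rw [Nat.cast_one]
        exact Real.one_le_rpow (by linarith) hδ₁.le)
    have f1 : C₁ * X / (((1 : ℕ) : ℝ) * Real.log X ^ c) = C₁ * (X * (1 / l)) := by
      rw [← hl, Nat.cast_one, one_mul]
      field_simp
    have f2 : C₁ * ((2 * X : ℕ) : ℝ) / (((1 : ℕ) : ℝ) * Real.log ((2 * X : ℕ) : ℝ) ^ c) ≤
        2 * (C₁ * (X * (1 / l))) := by
      have g1 : l ≤ Real.log ((2 * X : ℕ) : ℝ) ^ c := by
        rw [hl]
        apply Real.rpow_le_rpow hlog.le _ hc0.le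
        exact Real.log_le_log hX0 hX2
      rw [Nat.cast_one, one_mul]
      calc C₁ * ((2 * X : ℕ) : ℝ) / Real.log ((2 * X : ℕ) : ℝ) ^ c
          ≤ C₁ * ((2 * X : ℕ) : ℝ) / l := div_le_div_of_nonneg_left (by positivity) hl0 g1
        _ = 2 * (C₁ * (X * (1 / l))) := by
            push_cast
            field_simp
    rw [f1] at e3
    have e5 := e4.trans f2
    have f3 : d * X / ((1 : ℕ) : ℝ) = d * X := by rw [Nat.cast_one, div_one]
    have f4 : d * ((2 * X : ℕ) : ℝ) / ((1 : ℕ) : ℝ) = 2 * (d * X) := by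
      rw [Nat.cast_one, div_one]
      push_cast
      ring
    rw [f3] at e3
    rw [f4] at e5
    have f5 : C₂ / η * X * Real.sqrt (Real.log (2 * h) / Real.log X) = C₂ * (X * s) := by
      rw [hs]
      field_simp
    rw [f5] at e1
    have h8 : (C₂ + 3 * C₁ + 8) * X * (s + 1 / l) =
        C₂ * (X * s) + C₂ * (X * (1 / l)) + 3 * (C₁ * (X * s)) + 3 * (C₁ * (X * (1 / l))) +
        8 * (X * s) + 8 * (X * (1 / l)) := by ring
    have g2 : 0 ≤ C₂ * (X * (1 / l)) := by positivity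
    have g3 : 0 ≤ 3 * (C₁ * (X * s)) := by positivity
    have g4 : 0 ≤ 8 * (X * s) := by positivity
    rw [h8]
    rw [abs_le] at e1 e2 e3 e5 ⊢
    constructor
    · linarith [e1.1, e2.1, e3.2, e5.1]
    · linarith [e1.2, e2.2, e3.1, e5.2]

end Pool.Agent.LCF
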