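import Mathlib
import Pool.Agent.LCF.LawD

set_option autoImplicit false

/-!
The sharp local 0-1 law with explicit rates, with an integer threshold.
-/

namespace Pool.Agent.LCF

open Filter Topology
open Pool.Agent.LC86
open Pool.Agent.SLD (N)

private theorem thr {h m : ℕ} (hh : 1 ≤ h) (hm : 1 ≤ m) : 0 < ((m : ℝ) - 1 / 2) / h ∧
    1 / (((m : ℝ) - 1 / 2) / h) ≤ 2 * ((h : ℝ) / m) ∧ ((m : ℝ) - 1 / 2) / h * h = m - 1 / 2 := by
  have hh0 : (0 : ℝ) < h := by exact_mod_cast hh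
  have hm1 : (1 : ℝ) ≤ m := by exact_mod_cast hm
  have hm2 : (0 : ℝ) < m - 1 / 2 := by linarith
  refine ⟨by positivity, ?_, by field_simp⟩
  rw [one_div_div, mul_div_assoc']
  rw [div_le_div_iff₀ hm2 (by linarith)]
  nlinarith

/-- Merging inside the blocks. -/
theorem apartM : ∃ C : ℝ, 0 < C ∧ ∀ (σ : ℤ) (X h m : ℕ), |σ| = 1 → 2 ≤ X → 1 ≤ h → 1 ≤ m →
    (Set.ncard {x : ℕ | X ≤ x ∧ x < 2 * X ∧ m ≤ ApartH σ h x} : ℝ) ≤
      C * X * ((h : ℝ) / m * Real.sqrt (Real.log (2 * h) / Real.log X)) := by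
  obtain ⟨C, hC, hg⟩ := apart_le
  refine ⟨2 * C, by positivity, fun σ X h m hσ hX hh hm => ?_⟩
  obtain ⟨t1, t2, t3⟩ := thr hh hm
  have h1 := hg σ X h _ hσ hX hh t1
  rw [t3] at h1
  have h2 : {x : ℕ | X ≤ x ∧ x < 2 * X ∧ m ≤ ApartH σ h x} =
      {x : ℕ | X ≤ x ∧ x < 2 * X ∧ (m : ℝ) - 1 / 2 < (ApartH σ h x : ℝ)} := by
    ext x
    simp only [Set.mem_ofPred_eq]
    constructor
    · rintro ⟨a1, a2, a3⟩
      have a4 : (m : ℝ) ≤ ApartH σ h x := by exact_mod_cast a3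
      exact ⟨a1, a2, by linarith⟩
    · rintro ⟨a1, a2, a3⟩
      refine ⟨a1, a2, ?_⟩
      have a4 : (m : ℝ) < (ApartH σ h x : ℝ) + 1 := by linarith
      have a5 : m < ApartH σ h x + 1 := by exact_mod_cast a4
      omega
  rw [h2]
  refine h1.trans ?_
  have h3 : C / (((m : ℝ) - 1 / 2) / h) = C * (1 / (((m : ℝ) - 1 / 2) / h)) := by ring
  rw [h3]
  have h4 := Real.sqrt_nonneg (Real.log (2 * h) / Real.log X)
  have h5 : C * (1 / (((m : ℝ) - 1 / 2) / h)) ≤ C * (2 * ((h : ℝ) / m)) :=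
    mul_le_mul_of_nonneg_left t2 hC.le
  calc C * (1 / (((m : ℝ) - 1 / 2) / h)) * X * Real.sqrt (Real.log (2 * h) / Real.log X)
      ≤ C * (2 * ((h : ℝ) / m)) * X * Real.sqrt (Real.log (2 * h) / Real.log X) := by
        apply mul_le_mul_of_nonneg_right _ h4
        exact mul_le_mul_of_nonneg_right h5 (Nat.cast_nonneg X)
    _ = 2 * C * X * ((h : ℝ) / m * Real.sqrt (Real.log (2 * h) / Real.log X)) := by ring

/-- The 0-1 law with rates. -/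
theorem lawM {c : ℝ} (hc0 : 0 < c) (hc1 : c ≤ 1) (hQ : Pool.Agent.RTE.ALQc c) :
    ∃ δ C : ℝ, 0 < δ ∧ 0 < C ∧ ∀ (σ : ℤ) (K : ℕ) (A : Set ℤ) (d : ℝ) (X h m : ℕ), |σ| = 1 →
      Pool.Agent.SLD.EvInv K A → Tendsto (fun Y : ℕ => (N σ A Y 1 0 : ℝ) / Y) atTop (𝓝 d) →
      2 ≤ X → (K : ℝ) ≤ (X : ℝ) ^ δ → 1 ≤ m → 2 * m ≤ h + 1 →
      |(Set.ncard {x : ℕ | X ≤ x ∧ x < 2 * X ∧ NumH σ Aᶜ h x < m} : ℝ) - d * X| ≤
        C * X * ((h : ℝ) / m * Real.sqrt (Real.log (2 * h) / Real.log X) + 1 / Real.log X ^ c) := by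
  obtain ⟨δ, C, hδ, hC, hL⟩ := law hc0 hc1 hQ
  refine ⟨δ, 2 * C, hδ, by positivity, ?_⟩
  intro σ K A d X h m hσ hA hd hX hK hm hmh
  have hh : 1 ≤ h := by omega
  have hh0 : (0 : ℝ) < h := by exact_mod_cast hh
  obtain ⟨t1, t2, t3⟩ := thr hh hm
  have t4 : ((m : ℝ) - 1 / 2) / h ≤ 1 / 2 := by
    rw [div_le_iff₀ hh0]
    have : (2 : ℝ) * m ≤ h + 1 := by exact_mod_cast hmh
    linarith
  have h1 := hL σ K A d X h _ hσ hA hd hX hK hh t1 t4
  rw [t3] at h1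
  have h2 : {x : ℕ | X ≤ x ∧ x < 2 * X ∧ NumH σ Aᶜ h x < m} =
      {x : ℕ | X ≤ x ∧ x < 2 * X ∧ (NumH σ Aᶜ h x : ℝ) ≤ (m : ℝ) - 1 / 2} := by
    ext x
    simp only [Set.mem_ofPred_eq]
    constructor
    · rintro ⟨a1, a2, a3⟩
      have a4 : (NumH σ Aᶜ h x : ℝ) + 1 ≤ m := by exact_mod_cast a3
      exact ⟨a1, a2, by linarith⟩
    · rintro ⟨a1, a2, a3⟩
      refine ⟨a1, a2, ?_⟩
      have a4 : (NumH σ Aᶜ h x : ℝ) < m := by linarith
      exact_mod_cast a4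
  rw [h2]
  refine h1.trans ?_
  have hX1 : (1 : ℝ) < X := by exact_mod_cast (show 1 < X by omega)
  have hlog : 0 < Real.log X := Real.log_pos hX1
  have h4 := Real.sqrt_nonneg (Real.log (2 * h) / Real.log X)
  have h6 : (0 : ℝ) ≤ 1 / Real.log X ^ c := by positivity
  have h7 : Real.sqrt (Real.log (2 * h) / Real.log X) / (((m : ℝ) - 1 / 2) / h) ≤
      2 * ((h : ℝ) / m * Real.sqrt (Real.log (2 * h) / Real.log X)) := by
    calc Real.sqrt (Real.log (2 * h) / Real.log X) / (((m : ℝ) - 1 / 2) / h)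
        = 1 / (((m : ℝ) - 1 / 2) / h) * Real.sqrt (Real.log (2 * h) / Real.log X) := by ring
      _ ≤ 2 * ((h : ℝ) / m) * Real.sqrt (Real.log (2 * h) / Real.log X) :=
          mul_le_mul_of_nonneg_right t2 h4
      _ = _ := by ring
  have hX0 : (0 : ℝ) ≤ X := by linarith
  calc C * X * (Real.sqrt (Real.log (2 * h) / Real.log X) / (((m : ℝ) - 1 / 2) / h) +
        1 / Real.log X ^ c)
      ≤ C * X * (2 * ((h : ℝ) / m * Real.sqrt (Real.log (2 * h) / Real.log X)) +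
        2 * (1 / Real.log X ^ c)) := by
        apply mul_le_mul_of_nonneg_left _ (by positivity)
        linarith
    _ = 2 * C * X * ((h : ℝ) / m * Real.sqrt (Real.log (2 * h) / Real.log X) +
        1 / Real.log X ^ c) := by ring

end Pool.Agent.LCF
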