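import Mathlib
import Pool.Agent.LCF.LawM
import Pool.Agent.LCF.Few

set_option autoImplicit false

/-!
Consequences of the merging of whole blocks.
-/

namespace Pool.Agent.LCF

open Filter Topology
open Pool.Agent.Helper14 (T)
open Pool.Agent.LC86
open Pool.Agent.SLD (N)

/-- Whole blocks merge. -/
def Mono : Prop :=
  ∃ C : ℝ, 0 < C ∧ ∀ (σ : ℤ) (X h : ℕ), |σ| = 1 → 2 ≤ X → 1 ≤ h →
    (Set.ncard {x : ℕ | X ≤ x ∧ x < 2 * X ∧ 1 ≤ ApartH σ h x} : ℝ) ≤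
      C * X * ((1 + Real.log h) / Real.sqrt (Real.log X))

/-- For some `H = H(X)` with `log H = o(sqrt (log X))`, and for `X` in a sequence tending to infinity, all but
`o(X)` of the blocks `(x, x + H]`, `X ≤ x < 2 X`, contain an integer `n` with `σ n ∈ N`. -/
def One (σ : ℤ) (N : Set ℤ) : Prop :=
  ∃ H : ℕ → ℕ, Tendsto (fun X : ℕ => Real.log (H X) / Real.sqrt (Real.log X)) atTop (𝓝 0) ∧
    ∀ ε : ℝ, 0 < ε → ∃ᶠ X : ℕ in atTop,
      (Set.ncard {x : ℕ | X ≤ x ∧ x < 2 * X ∧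
        ¬ ∃ n : ℕ, x < n ∧ n ≤ x + H X ∧ σ * (n : ℤ) ∈ N} : ℝ) ≤ ε * X

private theorem fin_X3 (X : ℕ) (P : ℕ → Prop) : {x : ℕ | X ≤ x ∧ x < 2 * X ∧ P x}.Finite :=
  (Set.finite_Iio (2 * X)).subset fun _ hn => hn.2.1

private theorem it_inv {A : Set ℤ} (hA : ∀ n, T n ∈ A ↔ n ∈ A) (k : ℕ) : ∀ n, T^[k] n ∈ A ↔ n ∈ A := by
  induction k with
  | zero => intro n; rfl
  | succ k ih => intro n; rw [Function.iterate_succ_apply, ih, hA]

/-- a block which is not apart is on the side of `x` -/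
private theorem side {A : Set ℤ} (hA : ∀ n, T n ∈ A ↔ n ∈ A) {σ : ℤ} {h x : ℕ}
    (hx : ¬ 1 ≤ ApartH σ h x) {n : ℕ} (h1 : x < n) (h2 : n ≤ x + h) :
    σ * (n : ℤ) ∈ A ↔ σ * (x : ℤ) ∈ A := by
  have h3 : ApartH σ h x = 0 := by omega
  unfold ApartH at h3
  rw [Set.ncard_eq_zero (blkH_finite h x _)] at h3
  by_contra h4
  have h5 : n ∈ {n : ℕ | x < n ∧ n ≤ x + h ∧
      ¬ ∃ k : ℕ, T^[k] (σ * (x : ℤ)) = T^[k] (σ * (n : ℤ))} := by
    refine ⟨h1, h2, ?_⟩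
    rintro ⟨k, hk⟩
    apply h4
    rw [← it_inv hA k (σ * (n : ℤ)), ← hk, it_inv hA k]
  rw [h3] at h5
  exact h5

private theorem one_ineq {A : Set ℤ} (hA : ∀ n, T n ∈ A ↔ n ∈ A) {σ : ℤ} (X H : ℕ) :
    Set.ncard {x : ℕ | X ≤ x ∧ x < 2 * X ∧ σ * (x : ℤ) ∈ A} ≤
      Set.ncard {x : ℕ | X ≤ x ∧ x < 2 * X ∧
        ¬ ∃ n : ℕ, x < n ∧ n ≤ x + H ∧ σ * (n : ℤ) ∈ Aᶜ} +
      Set.ncard {x : ℕ | X ≤ x ∧ x < 2 * X ∧ 1 ≤ ApartH σ H x} := by
  refine (Set.ncard_le_ncard ?_ ((fin_X3 X _).union (fin_X3 X _))).trans (Set.ncard_union_le _ _)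
  rintro x ⟨hx1, hx2, hx3⟩
  by_cases h : 1 ≤ ApartH σ H x
  · exact Or.inr ⟨hx1, hx2, h⟩
  · refine Or.inl ⟨hx1, hx2, ?_⟩
    rintro ⟨n, h1, h2, h3⟩
    exact h3 ((side hA h h1 h2).2 hx3)

/-- A member of sign `σ`: a positive proportion of the blocks are contained in `A`. -/
theorem many_whole (hMo : Mono) {σ : ℤ} (hσ : |σ| = 1) {A : Set ℤ} (hA : ∀ n, T n ∈ A ↔ n ∈ A) {a : ℤ}
    (ha : a ∈ A) (hpos : 0 < σ * a) {H : ℕ → ℕ}
    (hlim : Tendsto (fun X : ℕ => Real.log (H X) / Real.sqrt (Real.log X)) atTop (𝓝 0)) :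
    ∃ δ : ℝ, 0 < δ ∧ ∀ᶠ X : ℕ in atTop,
      δ * X < (Set.ncard {x : ℕ | X ≤ x ∧ x < 2 * X ∧
        ¬ ∃ n : ℕ, x < n ∧ n ≤ x + H X ∧ σ * (n : ℤ) ∈ Aᶜ} : ℝ) := by
  obtain ⟨c, hc, hN⟩ := Pool.Agent.Collatz3.ND.main
  obtain ⟨D, g1, -, -, -, g5, -⟩ := hN σ hσ
  obtain ⟨C, hC, hb⟩ := hMo
  have hd0 := g5 A hA a ha hpos
  have ha0 : 0 < |(a : ℝ)| := by
    rw [abs_pos]
    intro h6
    have h7 : a = 0 := by exact_mod_cast h6
    rw [h7, mul_zero] at hpos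
    exact lt_irrefl _ hpos
  obtain ⟨d, hd⟩ : ∃ d, d = D A := ⟨_, rfl⟩
  rw [← hd] at hd0
  have hdpos : 0 < d := lt_of_lt_of_le (by positivity) hd0
  have hD1 := (g1 0 A (fun n _ => hA n)).tendsto
  have hD2 : Tendsto (fun x : ℝ => (Set.ncard {m : ℕ | (m : ℝ) ≤ x ∧ σ * (m : ℤ) ∈ A} : ℝ) / x)
      atTop (𝓝 d) := by
    rw [hd]
    exact hD1
  refine ⟨d / 4, by positivity, ?_⟩
  have hs : Tendsto (fun X : ℕ => 1 / Real.sqrt (Real.log X)) atTop (𝓝 0) := by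
    have h1 : Tendsto (fun X : ℕ => Real.sqrt (Real.log X)) atTop atTop :=
      Real.tendsto_sqrt_atTop.comp (Real.tendsto_log_atTop.comp tendsto_natCast_atTop_atTop)
    exact h1.const_div_atTop 1
  have hlim2 : ∀ᶠ X : ℕ in atTop,
      (1 + Real.log (H X)) / Real.sqrt (Real.log X) < d / (8 * C) := by
    have h1 := hs.add hlim
    rw [add_zero] at h1
    have h2 : (fun X : ℕ => 1 / Real.sqrt (Real.log X) + Real.log (H X) / Real.sqrt (Real.log X)) =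
        fun X : ℕ => (1 + Real.log (H X)) / Real.sqrt (Real.log X) := by
      funext X
      rw [← add_div]
    rw [h2] at h1
    exact h1.eventually_lt_const (by positivity)
  filter_upwards [In_dens hD2 (show 0 < d / 4 by positivity), hlim2, eventually_ge_atTop 2]
    with X hX hX2 hX3
  have hX0 : (0 : ℝ) < X := by exact_mod_cast (show 0 < X by omega)
  have h1 := one_ineq hA (σ := σ) X (H X)
  have h2 : (Set.ncard {x : ℕ | X ≤ x ∧ x < 2 * X ∧ σ * (x : ℤ) ∈ A} : ℝ) ≤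
      (Set.ncard {x : ℕ | X ≤ x ∧ x < 2 * X ∧
        ¬ ∃ n : ℕ, x < n ∧ n ≤ x + H X ∧ σ * (n : ℤ) ∈ Aᶜ} : ℝ) +
      (Set.ncard {x : ℕ | X ≤ x ∧ x < 2 * X ∧ 1 ≤ ApartH σ (H X) x} : ℝ) := by
    exact_mod_cast h1
  have h3 : (Set.ncard {x : ℕ | X ≤ x ∧ x < 2 * X ∧ 1 ≤ ApartH σ (H X) x} : ℝ) ≤ d / 8 * X := by
    rcases Nat.eq_zero_or_pos (H X) with h0 | h0
    · have e1 : {x : ℕ | X ≤ x ∧ x < 2 * X ∧ 1 ≤ ApartH σ (H X) x} = ∅ := by
        apply Set.eq_empty_of_forall_notMem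
        rintro x ⟨_, _, h3⟩
        rw [h0] at h3
        have e2 : ApartH σ 0 x = 0 := by
          unfold ApartH
          rw [Set.ncard_eq_zero (blkH_finite 0 x _)]
          apply Set.eq_empty_of_forall_notMem
          rintro n ⟨a1, a2, _⟩
          omega
        omega
      rw [e1, Set.ncard_empty, Nat.cast_zero]
      positivity
    · calc (Set.ncard {x : ℕ | X ≤ x ∧ x < 2 * X ∧ 1 ≤ ApartH σ (H X) x} : ℝ)
          ≤ C * X * ((1 + Real.log (H X)) / Real.sqrt (Real.log X)) := hb σ X (H X) hσ hX3 h0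
        _ ≤ C * X * (d / (8 * C)) := mul_le_mul_of_nonneg_left hX2.le (by positivity)
        _ = d / 8 * X := by field_simp
  have h5 := (abs_le.1 hX).1
  have h6 : 0 < d * X := by positivity
  linarith

/-- The criterion. -/
theorem one_iff (hMo : Mono) {σ : ℤ} (hσ : |σ| = 1) {A : Set ℤ} (hA : ∀ n, T n ∈ A ↔ n ∈ A) :
    (∀ n ∈ A, ¬ 0 < σ * n) ↔ One σ Aᶜ := by
  constructor
  · intro h
    refine ⟨fun _ => 1, ?_, fun ε hε => ?_⟩
    · simp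
    · apply Eventually.frequently
      filter_upwards with X
      have h1 : {x : ℕ | X ≤ x ∧ x < 2 * X ∧
          ¬ ∃ n : ℕ, x < n ∧ n ≤ x + 1 ∧ σ * (n : ℤ) ∈ Aᶜ} = ∅ := by
        apply Set.eq_empty_of_forall_notMem
        rintro x ⟨_, _, h3⟩
        apply h3
        refine ⟨x + 1, by omega, le_rfl, fun h6 => h _ h6 ?_⟩
        have h7 : σ * σ = 1 := by
          rw [← abs_mul_abs_self, hσ, one_mul]
        rw [← mul_assoc, h7, one_mul]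
        positivity
      rw [h1, Set.ncard_empty, Nat.cast_zero]
      positivity
  · rintro ⟨H, hlim, hf⟩ a ha hpos
    obtain ⟨δ, hδ, hev⟩ := many_whole hMo hσ hA ha hpos hlim
    obtain ⟨X, hX1, hX2⟩ := ((hf δ hδ).and_eventually hev).exists
    exact absurd hX1 (not_le.2 hX2)

end Pool.Agent.LCF
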