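import Mathlib
import Pool.Agent.LCF.LawD
import Pool.Agent.LCF.One

set_option autoImplicit false

/-!
The 0-1 law for whole blocks, from the merging of whole blocks at a fixed time.
-/

namespace Pool.Agent.LCF

open Filter Topology
open Pool.Agent.Helper14 (T)
open Pool.Agent.LC86
open Pool.Agent.SLD (N)
open Pool.Agent.Collatz3.DN (iter_mem)

/-- Whole blocks merge within the time `log₂ (2 X) / 2`. -/
def MonoT : Prop :=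
  ∃ C : ℝ, 0 < C ∧ ∀ (σ : ℤ) (X h : ℕ), |σ| = 1 → 2 ≤ X → 1 ≤ h →
    (Set.ncard {x : ℕ | X ≤ x ∧ x < 2 * X ∧ ∃ n : ℕ, x < n ∧ n ≤ x + h ∧
      T^[Nat.log 2 (2 * X) / 2] (σ * (x : ℤ)) ≠ T^[Nat.log 2 (2 * X) / 2] (σ * (n : ℤ))} : ℝ) ≤
      C * X * ((1 + Real.log h) / Real.sqrt (Real.log X))

private theorem fin_X4 (X : ℕ) (P : ℕ → Prop) : {x : ℕ | X ≤ x ∧ x < 2 * X ∧ P x}.Finite :=
  (Set.finite_Iio (2 * X)).subset fun _ hn => hn.2.1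

theorem mono_of_T (h : MonoT) : Mono := by
  obtain ⟨C, hC, hM⟩ := h
  refine ⟨C, hC, fun σ X h hσ hX hh => le_trans ?_ (hM σ X h hσ hX hh)⟩
  have h1 : Set.ncard {x : ℕ | X ≤ x ∧ x < 2 * X ∧ 1 ≤ ApartH σ h x} ≤
      Set.ncard {x : ℕ | X ≤ x ∧ x < 2 * X ∧ ∃ n : ℕ, x < n ∧ n ≤ x + h ∧
      T^[Nat.log 2 (2 * X) / 2] (σ * (x : ℤ)) ≠ T^[Nat.log 2 (2 * X) / 2] (σ * (n : ℤ))} := by
    apply Set.ncard_le_ncard _ (fin_X4 X _)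
    rintro x ⟨a1, a2, a3⟩
    refine ⟨a1, a2, ?_⟩
    by_contra h4
    push Not at h4
    have h5 : ApartH σ h x = 0 := by
      unfold ApartH
      rw [Set.ncard_eq_zero (blkH_finite h x _)]
      apply Set.eq_empty_of_forall_notMem
      rintro n ⟨b1, b2, b3⟩
      exact b3 ⟨_, h4 n b1 b2⟩
    omega
  exact_mod_cast h1

private theorem pow_lt_X {K X : ℕ} (hK : 2 * K ^ 2 < X) (hX : 2 ≤ X) :
    K * 2 ^ (Nat.log 2 (2 * X) / 2) < X := by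
  obtain ⟨k, hk⟩ : ∃ k, k = Nat.log 2 (2 * X) / 2 := ⟨_, rfl⟩
  rw [← hk]
  have h2 : (2 ^ k) ^ 2 ≤ 2 * X := by
    rw [← pow_mul]
    refine (Nat.pow_le_pow_right (by norm_num) (show k * 2 ≤ Nat.log 2 (2 * X) by omega)).trans ?_
    exact Nat.pow_log_le_self 2 (by omega)
  by_contra h4
  push Not at h4
  have h5 : X ^ 2 ≤ (K * 2 ^ k) ^ 2 := Nat.pow_le_pow_left h4 2
  have h6 : (K * 2 ^ k) ^ 2 ≤ K ^ 2 * (2 * X) := by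
    rw [mul_pow]
    exact Nat.mul_le_mul_left _ h2
  have h7 : K ^ 2 * (2 * X) < X ^ 2 := by
    have h8 : K ^ 2 * (2 * X) = (2 * K ^ 2) * X := by ring
    rw [h8, sq X]
    exact Nat.mul_lt_mul_of_pos_right hK (by omega)
  omega

/-- Blocks in `A` and members of `A`. -/
theorem whole_in (hMo : MonoT) : ∃ C : ℝ, 0 < C ∧ ∀ (σ : ℤ) (K : ℕ) (A : Set ℤ) (X h : ℕ), |σ| = 1 →
    Pool.Agent.Collatz3.DN.EvInv K A → 2 * K ^ 2 < X → 2 ≤ X → 1 ≤ h →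
    |(Set.ncard {x : ℕ | X ≤ x ∧ x < 2 * X ∧ ∀ n : ℕ, x < n → n ≤ x + h → σ * (n : ℤ) ∈ A} : ℝ) -
      Set.ncard {x : ℕ | X ≤ x ∧ x < 2 * X ∧ σ * (x : ℤ) ∈ A}| ≤
      C * X * ((1 + Real.log h) / Real.sqrt (Real.log X)) := by
  obtain ⟨C, hC, hM⟩ := hMo
  refine ⟨C, hC, fun σ K A X h hσ hA hK hX hh => ?_⟩
  have hM' := hM σ X h hσ hX hh
  obtain ⟨k, hk⟩ : ∃ k, k = Nat.log 2 (2 * X) / 2 := ⟨_, rfl⟩
  have hKk := pow_lt_X hK hX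
  rw [← hk] at hM' hKk
  have key : ∀ x n : ℕ, X ≤ x → x < n → T^[k] (σ * (x : ℤ)) = T^[k] (σ * (n : ℤ)) →
      (σ * (x : ℤ) ∈ A ↔ σ * (n : ℤ) ∈ A) := by
    intro x n hx hn he
    have h4 : ∀ y : ℕ, X ≤ y → (K : ℤ) * 2 ^ k < |σ * (y : ℤ)| := by
      intro y hy
      rw [abs_mul, hσ, one_mul, Nat.abs_cast]
      exact_mod_cast lt_of_lt_of_le hKk hy
    rw [← iter_mem hA k _ (h4 x hx), ← iter_mem hA k _ (h4 n (by omega)), he]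
  have h1 : Set.ncard {x : ℕ | X ≤ x ∧ x < 2 * X ∧ σ * (x : ℤ) ∈ A} ≤
      Set.ncard {x : ℕ | X ≤ x ∧ x < 2 * X ∧ ∀ n : ℕ, x < n → n ≤ x + h → σ * (n : ℤ) ∈ A} +
      Set.ncard {x : ℕ | X ≤ x ∧ x < 2 * X ∧ ∃ n : ℕ, x < n ∧ n ≤ x + h ∧
        T^[k] (σ * (x : ℤ)) ≠ T^[k] (σ * (n : ℤ))} := by
    refine (Set.ncard_le_ncard ?_ ((fin_X4 X _).union (fin_X4 X _))).trans (Set.ncard_union_le _ _)
    rintro x ⟨hx1, hx2, hx3⟩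
    by_cases hb : ∃ n : ℕ, x < n ∧ n ≤ x + h ∧ T^[k] (σ * (x : ℤ)) ≠ T^[k] (σ * (n : ℤ))
    · exact Or.inr ⟨hx1, hx2, hb⟩
    · push Not at hb
      exact Or.inl ⟨hx1, hx2, fun n g1 g2 => (key x n hx1 g1 (hb n g1 g2)).1 hx3⟩
  have h2 : Set.ncard {x : ℕ | X ≤ x ∧ x < 2 * X ∧
        ∀ n : ℕ, x < n → n ≤ x + h → σ * (n : ℤ) ∈ A} ≤
      Set.ncard {x : ℕ | X ≤ x ∧ x < 2 * X ∧ σ * (x : ℤ) ∈ A} +
      Set.ncard {x : ℕ | X ≤ x ∧ x < 2 * X ∧ ∃ n : ℕ, x < n ∧ n ≤ x + h ∧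
        T^[k] (σ * (x : ℤ)) ≠ T^[k] (σ * (n : ℤ))} := by
    refine (Set.ncard_le_ncard ?_ ((fin_X4 X _).union (fin_X4 X _))).trans (Set.ncard_union_le _ _)
    rintro x ⟨hx1, hx2, hx3⟩
    by_cases hb : ∃ n : ℕ, x < n ∧ n ≤ x + h ∧ T^[k] (σ * (x : ℤ)) ≠ T^[k] (σ * (n : ℤ))
    · exact Or.inr ⟨hx1, hx2, hb⟩
    · push Not at hb
      exact Or.inl ⟨hx1, hx2, (key x (x + 1) hx1 (by omega) (hb (x + 1) (by omega) (by omega))).2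
        (hx3 (x + 1) (by omega) (by omega))⟩
  have h3 : (Set.ncard {x : ℕ | X ≤ x ∧ x < 2 * X ∧ σ * (x : ℤ) ∈ A} : ℝ) ≤
      (Set.ncard {x : ℕ | X ≤ x ∧ x < 2 * X ∧
        ∀ n : ℕ, x < n → n ≤ x + h → σ * (n : ℤ) ∈ A} : ℝ) +
      (Set.ncard {x : ℕ | X ≤ x ∧ x < 2 * X ∧ ∃ n : ℕ, x < n ∧ n ≤ x + h ∧
        T^[k] (σ * (x : ℤ)) ≠ T^[k] (σ * (n : ℤ))} : ℝ) := by exact_mod_cast h1
  have h4 : (Set.ncard {x : ℕ | X ≤ x ∧ x < 2 * X ∧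
        ∀ n : ℕ, x < n → n ≤ x + h → σ * (n : ℤ) ∈ A} : ℝ) ≤
      (Set.ncard {x : ℕ | X ≤ x ∧ x < 2 * X ∧ σ * (x : ℤ) ∈ A} : ℝ) +
      (Set.ncard {x : ℕ | X ≤ x ∧ x < 2 * X ∧ ∃ n : ℕ, x < n ∧ n ≤ x + h ∧
        T^[k] (σ * (x : ℤ)) ≠ T^[k] (σ * (n : ℤ))} : ℝ) := by exact_mod_cast h2
  rw [abs_le]
  constructor <;> linarith

/-- The 0-1 law for whole blocks. -/
theorem whole_law {c : ℝ} (hc0 : 0 < c) (hc1 : c ≤ 1) (hQ : Pool.Agent.RTE.ALQc c) (hMo : MonoT) :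
    ∃ δ C : ℝ, 0 < δ ∧ 0 < C ∧ ∀ (σ : ℤ) (K : ℕ) (A : Set ℤ) (d : ℝ) (X h : ℕ), |σ| = 1 →
      Pool.Agent.SLD.EvInv K A → Tendsto (fun Y : ℕ => (N σ A Y 1 0 : ℝ) / Y) atTop (𝓝 d) →
      2 ≤ X → (K : ℝ) ≤ (X : ℝ) ^ δ → 1 ≤ h →
      |(Set.ncard {x : ℕ | X ≤ x ∧ x < 2 * X ∧ ∀ n : ℕ, x < n → n ≤ x + h → σ * (n : ℤ) ∈ A} : ℝ) -
        d * X| ≤ C * X * ((1 + Real.log h) / Real.sqrt (Real.log X) + 1 / Real.log X ^ c) := by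
  obtain ⟨C₁, hC₁, hW⟩ := whole_in hMo
  obtain ⟨δ, C₂, hδ, hC₂, hL⟩ := law hc0 hc1 hQ
  obtain ⟨C₃, hC₃, hN⟩ := num_le
  obtain ⟨δ', hδ'⟩ : ∃ δ' : ℝ, δ' = min δ (1 / 4) := ⟨_, rfl⟩
  have hδ0 : 0 < δ' := by rw [hδ']; exact lt_min hδ (by norm_num)
  have hδ1 : δ' ≤ δ := by rw [hδ']; exact min_le_left _ _
  have hδ4 : δ' ≤ 1 / 4 := by rw [hδ']; exact min_le_right _ _
  refine ⟨δ', C₁ + 4 * (C₂ + C₃) + 8, hδ0, by positivity, ?_⟩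
  intro σ K A d X h hσ hA hd hX hK hh
  have hX1 : (1 : ℝ) < X := by exact_mod_cast (show 1 < X by omega)
  have hX0 : (0 : ℝ) < X := by linarith
  have hlog : 0 < Real.log X := Real.log_pos hX1
  have hh1 : (1 : ℝ) ≤ h := by exact_mod_cast hh
  have hlh : 0 ≤ Real.log h := Real.log_nonneg hh1
  obtain ⟨l, hl⟩ : ∃ l : ℝ, l = Real.log X ^ c := ⟨_, rfl⟩
  have hl0 : 0 < l := by rw [hl]; exact Real.rpow_pos_of_pos hlog c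
  obtain ⟨s, hs⟩ : ∃ s : ℝ, s = Real.sqrt (Real.log X) := ⟨_, rfl⟩
  have hs0 : 0 < s := by rw [hs]; exact Real.sqrt_pos.2 hlog
  -- the law with `h = 1`, `η = 1/2`
  have e1 := hL σ K A d X 1 (1 / 2) hσ hA hd hX
    (hK.trans (Real.rpow_le_rpow_of_exponent_le hX1.le hδ1)) le_rfl (by norm_num) le_rfl
  have t1 : Real.sqrt (Real.log (2 * ((1 : ℕ) : ℝ)) / Real.log X) ≤ 1 / s := by
    rw [Real.sqrt_div (Real.log_nonneg (by norm_num)), ← hs]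
    apply div_le_div_of_nonneg_right _ hs0.le
    rw [Real.sqrt_le_iff]
    refine ⟨by norm_num, ?_⟩
    have := Real.log_two_lt_d9
    norm_num
    linarith
  have t2 : 1 / s ≤ (1 + Real.log h) / s := by
    apply div_le_div_of_nonneg_right _ hs0.le
    linarith
  obtain ⟨u, hu⟩ : ∃ u : ℝ, u = (1 + Real.log h) / s := ⟨_, rfl⟩
  have hu0 : 0 < u := by rw [hu]; positivity
  rw [← hu] at t2
  rw [← hs, ← hl, ← hu]
  rw [← hl] at e1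
  have e1' : |(Set.ncard {x : ℕ | X ≤ x ∧ x < 2 * X ∧ (NumH σ Aᶜ 1 x : ℝ) ≤ 1 / 2 * ((1 : ℕ) : ℝ)} : ℝ)
      - d * X| ≤ C₂ * X * (2 * u + 1 / l) := by
    refine e1.trans (mul_le_mul_of_nonneg_left ?_ (by positivity))
    have t3 : Real.sqrt (Real.log (2 * ((1 : ℕ) : ℝ)) / Real.log X) / (1 / 2) ≤ 2 * u := by
      rw [div_div_eq_mul_div, div_one]
      linarith
    linarith
  rcases Nat.lt_or_ge X 5 with h5 | h5
  · -- small X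
    have g1 : (Set.ncard {x : ℕ | X ≤ x ∧ x < 2 * X ∧
        ∀ n : ℕ, x < n → n ≤ x + h → σ * (n : ℤ) ∈ A} : ℝ) ≤ X := by
      have h2 : Set.ncard {x : ℕ | X ≤ x ∧ x < 2 * X ∧
          ∀ n : ℕ, x < n → n ≤ x + h → σ * (n : ℤ) ∈ A} ≤
          ((Finset.Ico X (2 * X) : Finset ℕ) : Set ℕ).ncard := by
        apply Set.ncard_le_ncard _ (Finset.finite_toSet _)
        rintro x ⟨a1, a2, _⟩
        rw [Finset.mem_coe, Finset.mem_Ico]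
        exact ⟨a1, a2⟩
      rw [Set.ncard_coe_finset, Nat.card_Ico] at h2
      have h3 : 2 * X - X = X := by omega
      rw [h3] at h2
      exact_mod_cast h2
    have g2 : (0 : ℝ) ≤ Set.ncard {x : ℕ | X ≤ x ∧ x < 2 * X ∧
        ∀ n : ℕ, x < n → n ≤ x + h → σ * (n : ℤ) ∈ A} := Nat.cast_nonneg _
    have g3 : (Set.ncard {x : ℕ | X ≤ x ∧ x < 2 * X ∧
        (NumH σ Aᶜ 1 x : ℝ) ≤ 1 / 2 * ((1 : ℕ) : ℝ)} : ℝ) ≤ X := by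
      have h2 : Set.ncard {x : ℕ | X ≤ x ∧ x < 2 * X ∧
          (NumH σ Aᶜ 1 x : ℝ) ≤ 1 / 2 * ((1 : ℕ) : ℝ)} ≤
          ((Finset.Ico X (2 * X) : Finset ℕ) : Set ℕ).ncard := by
        apply Set.ncard_le_ncard _ (Finset.finite_toSet _)
        rintro x ⟨a1, a2, _⟩
        rw [Finset.mem_coe, Finset.mem_Ico]
        exact ⟨a1, a2⟩
      rw [Set.ncard_coe_finset, Nat.card_Ico] at h2
      have h3 : 2 * X - X = X := by omega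
      rw [h3] at h2
      exact_mod_cast h2
    have g4 : (0 : ℝ) ≤ Set.ncard {x : ℕ | X ≤ x ∧ x < 2 * X ∧
        (NumH σ Aᶜ 1 x : ℝ) ≤ 1 / 2 * ((1 : ℕ) : ℝ)} := Nat.cast_nonneg _
    have h3 : (X : ℝ) ≤ 4 := by exact_mod_cast (show X ≤ 4 by omega)
    have h6 : s ≤ 2 := by
      rw [hs, Real.sqrt_le_left (by norm_num)]
      have := Real.log_le_self hX0.le
      linarith
    have h7 : 1 / 2 ≤ u := by
      refine le_trans ?_ t2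
      exact one_div_le_one_div_of_le hs0 h6
    have h8 : (C₁ + 4 * (C₂ + C₃) + 8) * X * (u + 1 / l) =
        C₂ * X * (2 * u + 1 / l) + (C₁ * (X * (u + 1 / l)) + 4 * (C₃ * (X * (u + 1 / l))) +
        2 * (C₂ * (X * u)) + 3 * (C₂ * (X * (1 / l))) + 8 * (X * (1 / l))) + 8 * (X * u) := by ring
    have h9 : 0 ≤ C₁ * (X * (u + 1 / l)) + 4 * (C₃ * (X * (u + 1 / l))) +
        2 * (C₂ * (X * u)) + 3 * (C₂ * (X * (1 / l))) + 8 * (X * (1 / l)) := by positivity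
    have h10 : (X : ℝ) ≤ 8 * (X * u) := by nlinarith
    rw [h8]
    rw [abs_le] at e1' ⊢
    constructor <;> linarith [e1'.1, e1'.2]
  · have hK4 : (K : ℝ) ≤ (X : ℝ) ^ ((1 : ℝ) / 4) :=
      hK.trans (Real.rpow_le_rpow_of_exponent_le hX1.le hδ4)
    have hK2 : 2 * K ^ 2 < X := by
      have h1 : ((K : ℝ) ^ 2) ^ 2 ≤ X := by
        have h2 : ((K : ℝ) ^ 4) ≤ ((X : ℝ) ^ ((1 : ℝ) / 4)) ^ 4 :=
          pow_le_pow_left₀ (Nat.cast_nonneg _) hK4 4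
        have h3 : ((X : ℝ) ^ ((1 : ℝ) / 4)) ^ 4 = X := by
          rw [← Real.rpow_natCast, ← Real.rpow_mul hX0.le]
          norm_num
        rw [h3] at h2
        have h4 : ((K : ℝ) ^ 2) ^ 2 = (K : ℝ) ^ 4 := by ring
        rw [h4]
        exact h2
      have h2 : (K ^ 2) ^ 2 ≤ X := by exact_mod_cast h1
      by_contra h3
      push Not at h3
      have h4 : 5 ≤ 2 * K ^ 2 := h5.trans h3
      have h6 : 3 ≤ K ^ 2 := by omega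
      have h7 : 2 * K ^ 2 < (K ^ 2) ^ 2 := by nlinarith
      omega
    have e2 := hW σ K A X h hσ hA hK2 hX hh
    have e3 := hN σ K A X 1 (1 / 2) hσ hA hK2 hX le_rfl (by norm_num) le_rfl
    rw [← hs, ← hu] at e2
    have e3' : |(Set.ncard {x : ℕ | X ≤ x ∧ x < 2 * X ∧
        (NumH σ Aᶜ 1 x : ℝ) ≤ 1 / 2 * ((1 : ℕ) : ℝ)} : ℝ) -
        Set.ncard {x : ℕ | X ≤ x ∧ x < 2 * X ∧ σ * (x : ℤ) ∈ A}| ≤ 2 * (C₃ * (X * u)) := by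
      refine e3.trans ?_
      have h6 : C₃ / (1 / 2) * X * Real.sqrt (Real.log (2 * ((1 : ℕ) : ℝ)) / Real.log X) ≤
          C₃ / (1 / 2) * X * u := mul_le_mul_of_nonneg_left (t1.trans t2) (by positivity)
      refine h6.trans (le_of_eq ?_)
      ring
    have h8 : (C₁ + 4 * (C₂ + C₃) + 8) * X * (u + 1 / l) =
        C₂ * X * (2 * u + 1 / l) + C₁ * X * u + 2 * (C₃ * (X * u)) + (C₁ * (X * (1 / l)) +
        2 * (C₃ * (X * u)) + 4 * (C₃ * (X * (1 / l))) +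
        2 * (C₂ * (X * u)) + 3 * (C₂ * (X * (1 / l))) + 8 * (X * (u + 1 / l))) := by ring
    have h9 : 0 ≤ C₁ * (X * (1 / l)) +
        2 * (C₃ * (X * u)) + 4 * (C₃ * (X * (1 / l))) +
        2 * (C₂ * (X * u)) + 3 * (C₂ * (X * (1 / l))) + 8 * (X * (u + 1 / l)) := by positivity
    rw [h8]
    rw [abs_le] at e1' e2 e3' ⊢
    constructor
    · linarith [e1'.1, e2.1, e3'.2]
    · linarith [e1'.2, e2.2, e3'.1]

end Pool.Agent.LCF
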