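import Mathlib
import Pool.Agent.LCF.Lat
import Pool.Agent.LCF.Whole
import Pool.Agent.MB86.Lattice

set_option autoImplicit false

/-!
The 0-1 law for the integers near the points `2 ^ i 3 ^ j x`.
-/

namespace Pool.Agent.LCF

open Filter Topology
open Pool.Agent.Helper14 (T)
open Pool.Agent.LC86
open Pool.Agent.SLD (N)

theorem all_Latt : Latt := by
  obtain ⟨C, hC, h⟩ := Pool.Agent.MB86.lattice
  refine ⟨C, hC, fun σ J X H hσ hX hH => le_trans ?_ (h σ J X H hσ hX hH)⟩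
  apply le_of_eq
  congr 2
  ext x
  constructor
  · rintro ⟨h1, h2, n, ⟨p, q, p', q', a1, a2, a3, a4, a5⟩, h3⟩
    exact ⟨h1, h2, p, q, p', q', a1, a2, a3, a4, n, a5, h3⟩
  · rintro ⟨h1, h2, p, q, p', q', a1, a2, a3, a4, n, a5, h3⟩
    exact ⟨h1, h2, n, ⟨p, q, p', q', a1, a2, a3, a4, a5⟩, h3⟩

private theorem fin_X6 (X : ℕ) (P : ℕ → Prop) : {x : ℕ | X ≤ x ∧ x < 2 * X ∧ P x}.Finite :=
  (Set.finite_Iio (2 * X)).subset fun _ hn => hn.2.1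

private theorem it_inv3 {A : Set ℤ} (hA : ∀ n, T n ∈ A ↔ n ∈ A) (k : ℕ) :
    ∀ n, T^[k] n ∈ A ↔ n ∈ A := by
  induction k with
  | zero => intro n; rfl
  | succ k ih => intro n; rw [Function.iterate_succ_apply, ih, hA]

private theorem near_next {σ : ℤ} (hσ : |σ| = 1) {J h : ℕ} (hh : 1 ≤ h) (x : ℕ) :
    Near J h (σ * (x : ℤ)) (σ * ((x + 1 : ℕ) : ℤ)) := by
  refine ⟨0, 0, 0, 0, Nat.zero_le _, Nat.zero_le _, Nat.zero_le _, Nat.zero_le _, ?_⟩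
  have h1 : (2 : ℤ) ^ 0 * 3 ^ 0 * (σ * ((x + 1 : ℕ) : ℤ)) - 2 ^ 0 * 3 ^ 0 * (σ * (x : ℤ)) = σ := by
    push_cast
    ring
  rw [h1, hσ]
  simp only [pow_zero, one_mul]
  exact_mod_cast hh

/-- The 0-1 law for the integers near the points `2 ^ i 3 ^ j x`. -/
theorem lat_law {c : ℝ} (hc0 : 0 < c) (hc1 : c ≤ 1) (hQ : Pool.Agent.RTE.ALQc c) (hMo : MonoT)
    (hLa : Latt) :
    ∃ C : ℝ, 0 < C ∧ ∀ (σ : ℤ) (A : Set ℤ) (d : ℝ) (J X h : ℕ), |σ| = 1 →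
      (∀ n, T n ∈ A ↔ n ∈ A) → Tendsto (fun Y : ℕ => (N σ A Y 1 0 : ℝ) / Y) atTop (𝓝 d) →
      2 ≤ X → 1 ≤ h →
      |(Set.ncard {x : ℕ | X ≤ x ∧ x < 2 * X ∧ ∀ n : ℤ, Near J h (σ * (x : ℤ)) n → n ∈ A} : ℝ) -
        d * X| ≤ C * X * ((1 + J + Real.log h) / Real.sqrt (Real.log X) + 1 / Real.log X ^ c) := by
  obtain ⟨δ, C₁, hδ, hC₁, hW⟩ := whole_law hc0 hc1 hQ hMo
  obtain ⟨C₂, hC₂, hL⟩ := hLa
  refine ⟨C₁ + C₂, by positivity, ?_⟩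
  intro σ A d J X h hσ hA hd hX hh
  have hX1 : (1 : ℝ) < X := by exact_mod_cast (show 1 < X by omega)
  have hX0 : (0 : ℝ) < X := by linarith
  have hlog : 0 < Real.log X := Real.log_pos hX1
  have hh1 : (1 : ℝ) ≤ h := by exact_mod_cast hh
  have hlh : 0 ≤ Real.log h := Real.log_nonneg hh1
  have hs0 : 0 < Real.sqrt (Real.log X) := Real.sqrt_pos.2 hlog
  have hl0 : 0 < Real.log X ^ c := Real.rpow_pos_of_pos hlog c
  have e1 := hW σ 0 A d X 1 hσ (fun n _ => hA n) hd hX (by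
    rw [Nat.cast_zero]
    positivity) le_rfl
  have e2 := hL σ J X h hσ hX hh
  have i1 : Set.ncard {x : ℕ | X ≤ x ∧ x < 2 * X ∧ ∀ n : ℤ, Near J h (σ * (x : ℤ)) n → n ∈ A} ≤
      Set.ncard {x : ℕ | X ≤ x ∧ x < 2 * X ∧ ∀ n : ℕ, x < n → n ≤ x + 1 → σ * (n : ℤ) ∈ A} := by
    apply Set.ncard_le_ncard _ (fin_X6 X _)
    rintro x ⟨h1, h2, h3⟩
    refine ⟨h1, h2, fun n g1 g2 => ?_⟩
    have g3 : n = x + 1 := by omega
    rw [g3]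
    exact h3 _ (near_next hσ hh x)
  have i2 : Set.ncard {x : ℕ | X ≤ x ∧ x < 2 * X ∧
        ∀ n : ℕ, x < n → n ≤ x + 1 → σ * (n : ℤ) ∈ A} ≤
      Set.ncard {x : ℕ | X ≤ x ∧ x < 2 * X ∧ ∀ n : ℤ, Near J h (σ * (x : ℤ)) n → n ∈ A} +
      Set.ncard {x : ℕ | X ≤ x ∧ x < 2 * X ∧
        ∃ n : ℤ, Near J h (σ * (x : ℤ)) n ∧ ∀ k l : ℕ, T^[k] n ≠ T^[l] (σ * (x : ℤ))} := by
    refine (Set.ncard_le_ncard ?_ ((fin_X6 X _).union (fin_X6 X _))).trans (Set.ncard_union_le _ _)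
    rintro x ⟨hx1, hx2, hx3⟩
    by_cases hb : ∃ n : ℤ, Near J h (σ * (x : ℤ)) n ∧ ∀ k l : ℕ, T^[k] n ≠ T^[l] (σ * (x : ℤ))
    · exact Or.inr ⟨hx1, hx2, hb⟩
    · push Not at hb
      have key : ∀ n : ℤ, Near J h (σ * (x : ℤ)) n → (n ∈ A ↔ σ * (x : ℤ) ∈ A) := by
        intro n hn
        obtain ⟨k, l, h3⟩ := hb n hn
        rw [← it_inv3 hA k n, h3, it_inv3 hA l]
      refine Or.inl ⟨hx1, hx2, fun n hn => ?_⟩
      rw [key n hn, ← key _ (near_next hσ hh x)]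
      exact hx3 (x + 1) (by omega) le_rfl
  have i1' : (Set.ncard {x : ℕ | X ≤ x ∧ x < 2 * X ∧
        ∀ n : ℤ, Near J h (σ * (x : ℤ)) n → n ∈ A} : ℝ) ≤
      (Set.ncard {x : ℕ | X ≤ x ∧ x < 2 * X ∧
        ∀ n : ℕ, x < n → n ≤ x + 1 → σ * (n : ℤ) ∈ A} : ℝ) := by exact_mod_cast i1
  have i2' : (Set.ncard {x : ℕ | X ≤ x ∧ x < 2 * X ∧
        ∀ n : ℕ, x < n → n ≤ x + 1 → σ * (n : ℤ) ∈ A} : ℝ) ≤
      (Set.ncard {x : ℕ | X ≤ x ∧ x < 2 * X ∧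
        ∀ n : ℤ, Near J h (σ * (x : ℤ)) n → n ∈ A} : ℝ) +
      (Set.ncard {x : ℕ | X ≤ x ∧ x < 2 * X ∧
        ∃ n : ℤ, Near J h (σ * (x : ℤ)) n ∧ ∀ k l : ℕ, T^[k] n ≠ T^[l] (σ * (x : ℤ))} : ℝ) := by
    exact_mod_cast i2
  obtain ⟨u, hu⟩ : ∃ u : ℝ, u = (1 + J + Real.log h) / Real.sqrt (Real.log X) := ⟨_, rfl⟩
  obtain ⟨v, hv⟩ : ∃ v : ℝ, v = 1 / Real.log X ^ c := ⟨_, rfl⟩
  have hv0 : 0 < v := by rw [hv]; positivity
  have hu0 : 0 < u := by rw [hu]; positivity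
  have t2 : (1 + Real.log ((1 : ℕ) : ℝ)) / Real.sqrt (Real.log X) ≤ u := by
    rw [hu]
    apply div_le_div_of_nonneg_right _ hs0.le
    rw [Nat.cast_one, Real.log_one]
    have : (0 : ℝ) ≤ J := Nat.cast_nonneg J
    linarith
  rw [← hv] at e1 ⊢
  rw [← hu] at e2 ⊢
  have e1' : C₁ * X * ((1 + Real.log ((1 : ℕ) : ℝ)) / Real.sqrt (Real.log X) + v) ≤
      C₁ * X * (u + v) := mul_le_mul_of_nonneg_left (by linarith) (by positivity)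
  have e3 : (C₁ + C₂) * X * (u + v) = C₁ * X * (u + v) + C₂ * X * u + C₂ * (X * v) := by ring
  have e4 : 0 < C₂ * (X * v) := by positivity
  have e5 : 0 < C₂ * X * u := by positivity
  have e6 := abs_le.1 e1
  rw [e3, abs_le]
  constructor
  · linarith [e6.1]
  · linarith [e6.2]

end Pool.Agent.LCF
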