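import Mathlib
import Pool.Agent.MB86.Count

set_option autoImplicit false

/-!
Neighbours under the `3x+1` map: a lower bound for the number of `x` such that `x` and `x + 1` do not merge
within `K` steps.
-/

namespace Pool.Agent.LCF

open Pool.Agent.Helper14 (T)
open Pool.Agent.MB86

/-- Along the first `K` binary digits of `t` the second walker makes more odd steps than the first one. -/
def Gd : ℕ → (ℕ × ℤ) → (ℕ × ℤ) → ℤ → Prop
  | 0, s₁, s₂, _ => s₁.1 < s₂.1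
  | K + 1, s₁, s₂, t => Gd K (st (t % 2) s₁) (st (t % 2) s₂) (t / 2)

/-- The invariant of the walkers. -/
def Iv (s : ℕ × ℤ) : Prop := 0 ≤ s.2 ∧ 3 * s.2 ≤ 4 * 3 ^ s.1

theorem iv_st {p : ℤ} (hp : 0 ≤ p) (hp1 : p ≤ 1) {s : ℕ × ℤ} (h : Iv s) : Iv (st p s) := by
  obtain ⟨h1, h2⟩ := h
  have h3 : (1 : ℤ) ≤ 3 ^ s.1 := one_le_pow₀ (by norm_num)
  have h4 : (3 : ℤ) ^ s.1 * p ≤ 3 ^ s.1 := by nlinarith
  have h5 : 0 ≤ (3 : ℤ) ^ s.1 * p := by positivity
  by_cases h : (p + s.2) % 2 = 0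
  · obtain ⟨m, e1, e2⟩ := st_even h
    rw [e2]
    refine ⟨?_, ?_⟩
    · show 0 ≤ m
      omega
    · show 3 * m ≤ 4 * 3 ^ s.1
      omega
  · obtain ⟨m, e1, e2⟩ := st_odd h
    rw [e2]
    refine ⟨?_, ?_⟩
    · show 0 ≤ 3 * m + 2
      omega
    · show 3 * (3 * m + 2) ≤ 4 * 3 ^ (s.1 + 1)
      rw [pow_succ]
      omega

theorem gd_lt (K : ℕ) : ∀ (s₁ s₂ : ℕ × ℤ) (t : ℤ), Iv s₁ → Iv s₂ → 2 ^ K ≤ t → Gd K s₁ s₂ t →
    T^[K] (val s₁ t) < T^[K] (val s₂ t) := by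
  induction K with
  | zero =>
    intro s₁ s₂ t h1 h2 ht hg
    have hg' : s₁.1 < s₂.1 := hg
    simp only [pow_zero] at ht
    simp only [Function.iterate_zero, id]
    unfold val
    have h3 : (1 : ℤ) ≤ 3 ^ s₁.1 := one_le_pow₀ (by norm_num)
    have h4 : (3 : ℤ) ^ (s₁.1 + 1) ≤ 3 ^ s₂.1 := pow_le_pow_right₀ (by norm_num) hg'
    rw [pow_succ] at h4
    have h5 : (3 : ℤ) ^ s₁.1 * 3 * t ≤ 3 ^ s₂.1 * t := mul_le_mul_of_nonneg_right h4 (by omega)
    have h6 : (3 : ℤ) ^ s₁.1 * 1 ≤ 3 ^ s₁.1 * t := mul_le_mul_of_nonneg_left ht (by omega)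
    have h7 := h1.2
    have h8 := h2.1
    nlinarith
  | succ K ih =>
    intro s₁ s₂ t h1 h2 ht hg
    have hg' : Gd K (st (t % 2) s₁) (st (t % 2) s₂) (t / 2) := hg
    have e : t = 2 * (t / 2) + t % 2 := by omega
    have e1 : ∀ s : ℕ × ℤ, T^[K + 1] (val s t) = T^[K] (val (st (t % 2) s) (t / 2)) := by
      intro s
      rw [Function.iterate_succ_apply, ← T_val, ← e]
    rw [e1, e1]
    refine ih _ _ _ (iv_st (by omega) (by omega) h1) (iv_st (by omega) (by omega) h2) ?_ hg'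
    rw [pow_succ] at ht
    omega

open Classical in
/-- The number of the `t` in `[c, c + 2 ^ K)` with `Gd`. -/
noncomputable def S (K : ℕ) (s₁ s₂ : ℕ × ℤ) (c : ℤ) : ℝ :=
  ∑ i ∈ Finset.range (2 ^ K), if Gd K s₁ s₂ (c + i) then (1 : ℝ) else 0

theorem S_nonneg (K : ℕ) (s₁ s₂ : ℕ × ℤ) (c : ℤ) : 0 ≤ S K s₁ s₂ c := by
  classical
  unfold S
  apply Finset.sum_nonneg
  intro i _
  split_ifs <;> norm_num

theorem gd_two (K : ℕ) (s₁ s₂ : ℕ × ℤ) (p t : ℤ) (hp : 0 ≤ p) (hp1 : p ≤ 1) :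
    Gd (K + 1) s₁ s₂ (2 * t + p) ↔ Gd K (st p s₁) (st p s₂) t := by
  have e1 : (2 * t + p) % 2 = p := by omega
  have e2 : (2 * t + p) / 2 = t := by omega
  show Gd K (st ((2 * t + p) % 2) s₁) (st ((2 * t + p) % 2) s₂) ((2 * t + p) / 2) ↔ _
  rw [e1, e2]

theorem S_split (K : ℕ) (s₁ s₂ : ℕ × ℤ) (c : ℤ) : ∃ c₀ c₁ : ℤ,
    S (K + 1) s₁ s₂ c = S K (st 0 s₁) (st 0 s₂) c₀ + S K (st 1 s₁) (st 1 s₂) c₁ := by
  classical
  have e0 : 2 ^ (K + 1) = 2 * 2 ^ K := by ring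
  rcases Int.emod_two_eq_zero_or_one c with h | h
  · refine ⟨c / 2, c / 2, ?_⟩
    unfold S
    rw [e0, sum_even_odd, Finset.sum_add_distrib]
    congr 1
    · apply Finset.sum_congr rfl
      intro i _
      have e : c + ((2 * i : ℕ) : ℤ) = 2 * (c / 2 + i) + 0 := by push_cast; omega
      rw [e]
      simp only [gd_two K s₁ s₂ 0 _ le_rfl zero_le_one]
    · apply Finset.sum_congr rfl
      intro i _
      have e : c + ((2 * i + 1 : ℕ) : ℤ) = 2 * (c / 2 + i) + 1 := by push_cast; omega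
      rw [e]
      simp only [gd_two K s₁ s₂ 1 _ zero_le_one le_rfl]
  · refine ⟨c / 2 + 1, c / 2, ?_⟩
    unfold S
    rw [e0, sum_even_odd, Finset.sum_add_distrib, add_comm]
    congr 1
    · apply Finset.sum_congr rfl
      intro i _
      have e : c + ((2 * i + 1 : ℕ) : ℤ) = 2 * (c / 2 + 1 + i) + 0 := by push_cast; omega
      rw [e]
      simp only [gd_two K s₁ s₂ 0 _ le_rfl zero_le_one]
    · apply Finset.sum_congr rfl
      intro i _
      have e : c + ((2 * i : ℕ) : ℤ) = 2 * (c / 2 + i) + 1 := by push_cast; omega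
      rw [e]
      simp only [gd_two K s₁ s₂ 1 _ zero_le_one le_rfl]

/-- The barrier function. -/
noncomputable def psi (L : ℝ) (K : ℕ) (d : ℝ) : ℝ := 3 / (2 * L) * (d - (d ^ 3 + 3 * K * d) / (3 * L ^ 2))

theorem psi_zero (L : ℝ) (K : ℕ) : psi L K 0 = 0 := by unfold psi; simp

theorem psi_le {L d : ℝ} (hL : 0 < L) (hd : 0 ≤ d) : psi L 0 d ≤ 1 := by
  unfold psi
  have h : 0 ≤ (d - L) ^ 2 * (d + 2 * L) := by positivity
  have e : 3 / (2 * L) * (d - (d ^ 3 + 3 * ((0 : ℕ) : ℝ) * d) / (3 * L ^ 2)) =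
      1 - (d - L) ^ 2 * (d + 2 * L) / (2 * L ^ 3) := by
    push_cast
    field_simp
    ring
  rw [e]
  have : 0 ≤ (d - L) ^ 2 * (d + 2 * L) / (2 * L ^ 3) := by positivity
  linarith

theorem psi_rec {L : ℝ} (hL : 0 < L) (K : ℕ) (d : ℝ) :
    psi L K (d + 1) + psi L K (d - 1) = 2 * psi L (K + 1) d := by
  unfold psi
  push_cast
  field_simp
  ring

theorem psi_mono {L : ℝ} (hL : 0 < L) (K : ℕ) {d : ℝ} (hd : 0 ≤ d) : psi L (K + 1) d ≤ psi L K d := by
  have e : psi L K d - psi L (K + 1) d = 3 * d / (2 * L ^ 3) := by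
    unfold psi
    push_cast
    field_simp
    ring
  have : 0 ≤ 3 * d / (2 * L ^ 3) := by positivity
  linarith

theorem st_fst (p : ℤ) (s : ℕ × ℤ) : (st p s).1 = if (p + s.2) % 2 = 0 then s.1 else s.1 + 1 := by
  unfold st
  split_ifs <;> rfl

theorem S_ge {L : ℝ} (hL : 0 < L) (K : ℕ) : ∀ (s₁ s₂ : ℕ × ℤ) (c : ℤ) (d : ℕ), s₂.1 = s₁.1 + d →
    2 ^ K * psi L K d ≤ S K s₁ s₂ c := by
  classical
  induction K with
  | zero =>
    intro s₁ s₂ c d hd
    rcases Nat.eq_zero_or_pos d with h | h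
    · rw [h, Nat.cast_zero, psi_zero, mul_zero]
      exact S_nonneg _ _ _ _
    · have hg : Gd 0 s₁ s₂ (c + ((0 : ℕ) : ℤ)) := by
        show s₁.1 < s₂.1
        omega
      have h1 : S 0 s₁ s₂ c = 1 := by
        unfold S
        rw [pow_zero, Finset.sum_range_one, if_pos hg]
      rw [h1, pow_zero, one_mul]
      exact psi_le hL (Nat.cast_nonneg _)
  | succ K ih =>
    intro s₁ s₂ c d hd
    obtain ⟨c₀, c₁, hs⟩ := S_split K s₁ s₂ c
    have hp : (0 : ℝ) < 2 ^ K := by positivity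
    have hd0 : (0 : ℝ) ≤ d := Nat.cast_nonneg _
    have e2 : (2 : ℝ) ^ (K + 1) = 2 * 2 ^ K := by ring
    rw [hs, e2]
    have hm := psi_mono hL K hd0
    by_cases hpar : s₁.2 % 2 = s₂.2 % 2
    · have g0 := ih (st 0 s₁) (st 0 s₂) c₀ d (by
        rw [st_fst, st_fst]
        split_ifs <;> omega)
      have g1 := ih (st 1 s₁) (st 1 s₂) c₁ d (by
        rw [st_fst, st_fst]
        split_ifs <;> omega)
      nlinarith
    · rcases Nat.eq_zero_or_pos d with h | h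
      · rw [h, Nat.cast_zero, psi_zero, mul_zero]
        exact add_nonneg (S_nonneg _ _ _ _) (S_nonneg _ _ _ _)
      · have hr := psi_rec hL K (d : ℝ)
        have ed1 : ((d - 1 : ℕ) : ℝ) = (d : ℝ) - 1 := by
          rw [Nat.cast_sub h, Nat.cast_one]
        have ed2 : ((d + 1 : ℕ) : ℝ) = (d : ℝ) + 1 := by push_cast; ring
        rcases Int.emod_two_eq_zero_or_one s₁.2 with hb | hb
        · have g0 := ih (st 0 s₁) (st 0 s₂) c₀ (d + 1) (by
            rw [st_fst, st_fst]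
            split_ifs <;> omega)
          have g1 := ih (st 1 s₁) (st 1 s₂) c₁ (d - 1) (by
            rw [st_fst, st_fst]
            split_ifs <;> omega)
          rw [ed2] at g0
          rw [ed1] at g1
          have : 2 * 2 ^ K * psi L (K + 1) d = 2 ^ K * (psi L K (d + 1) + psi L K (d - 1)) := by
            rw [hr]; ring
          rw [this]
          linarith
        · have g0 := ih (st 0 s₁) (st 0 s₂) c₀ (d - 1) (by
            rw [st_fst, st_fst]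
            split_ifs <;> omega)
          have g1 := ih (st 1 s₁) (st 1 s₂) c₁ (d + 1) (by
            rw [st_fst, st_fst]
            split_ifs <;> omega)
          rw [ed1] at g0
          rw [ed2] at g1
          have : 2 * 2 ^ K * psi L (K + 1) d = 2 ^ K * (psi L K (d + 1) + psi L K (d - 1)) := by
            rw [hr]; ring
          rw [this]
          linarith

/-- In every interval `[x₀, x₀ + Y)`, `x₀ ≥ Y ≥ 2`, at least `Y / (10 √(log Y))` of the `x` have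
`T^[k] (x + 1) ≠ T^[k] x`, `k = ⌊log₂ Y⌋`. -/
theorem sharp (Y : ℕ) (x₀ : ℤ) (hY : 2 ≤ Y) (hx : (Y : ℤ) ≤ x₀) :
    (Y : ℝ) / (10 * Real.sqrt (Real.log Y)) ≤
      (Set.ncard {x : ℤ | x₀ ≤ x ∧ x < x₀ + Y ∧ T^[Nat.log 2 Y] (x + 1) ≠ T^[Nat.log 2 Y] x} : ℝ) := by
  classical
  obtain ⟨K, hK⟩ : ∃ K, Nat.log 2 Y = K + 1 := by
    have : 0 < Nat.log 2 Y := Nat.log_pos (by norm_num) hY
    exact ⟨Nat.log 2 Y - 1, by omega⟩
  have hlow : 2 ^ (K + 1) ≤ Y := by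
    rw [← hK]
    exact Nat.pow_log_le_self 2 (by omega)
  have hup : Y < 2 ^ (K + 2) := by
    have := Nat.lt_pow_succ_log_self (b := 2) (by norm_num) Y
    rwa [hK] at this
  rw [hK]
  -- the count
  have h1 : S (K + 1) (0, 0) (0, 1) x₀ ≤
      (Set.ncard {x : ℤ | x₀ ≤ x ∧ x < x₀ + Y ∧ T^[K + 1] (x + 1) ≠ T^[K + 1] x} : ℝ) := by
    unfold S
    rw [← Finset.sum_filter, Finset.sum_const, nsmul_eq_mul, mul_one]
    have hfin : {x : ℤ | x₀ ≤ x ∧ x < x₀ + Y ∧ T^[K + 1] (x + 1) ≠ T^[K + 1] x}.Finite :=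
      (Set.finite_Ico x₀ (x₀ + Y)).subset fun x hx => ⟨hx.1, hx.2.1⟩
    rw [← Set.ncard_coe_finset]
    have h2 : ((fun i : ℕ => x₀ + (i : ℤ)) '' (((Finset.range (2 ^ (K + 1))).filter
        (fun i => Gd (K + 1) (0, 0) (0, 1) (x₀ + (i : ℤ))) : Finset ℕ) : Set ℕ)) ⊆
        {x : ℤ | x₀ ≤ x ∧ x < x₀ + Y ∧ T^[K + 1] (x + 1) ≠ T^[K + 1] x} := by
      rintro _ ⟨i, hi, rfl⟩
      rw [Finset.mem_coe, Finset.mem_filter, Finset.mem_range] at hi
      obtain ⟨hi1, hi2⟩ := hi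
      have hiY : (i : ℤ) < Y := by exact_mod_cast lt_of_lt_of_le hi1 hlow
      refine ⟨?_, ?_, ?_⟩
      · show x₀ ≤ x₀ + (i : ℤ)
        omega
      · show x₀ + (i : ℤ) < x₀ + Y
        omega
      have hpow : (2 : ℤ) ^ (K + 1) ≤ x₀ + i := by
        have h3 : ((2 ^ (K + 1) : ℕ) : ℤ) ≤ Y := by exact_mod_cast hlow
        push_cast at h3
        omega
      have h4 := gd_lt (K + 1) (0, 0) (0, 1) (x₀ + i) ⟨le_rfl, by norm_num⟩ ⟨by norm_num, by norm_num⟩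
        hpow hi2
      have e1 : val (0, 0) (x₀ + i) = x₀ + i := by unfold val; ring
      have e2 : val (0, 1) (x₀ + i) = x₀ + i + 1 := by unfold val; ring
      rw [e1, e2] at h4
      exact (ne_of_lt h4).symm
    have h5 := Set.ncard_le_ncard h2 hfin
    rw [Set.ncard_image_of_injective _ (fun a b hab => by
      have : x₀ + (a : ℤ) = x₀ + (b : ℤ) := hab
      omega)] at h5
    exact_mod_cast h5
  refine le_trans ?_ h1
  obtain ⟨c₀, c₁, hs⟩ := S_split K (0, 0) (0, 1) x₀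
  have s1 : st 0 (0, 0) = (0, 0) := by unfold st; norm_num
  have s2 : st 0 (0, 1) = (1, 2) := by unfold st; norm_num
  rw [s1, s2] at hs
  obtain ⟨L, hLdef⟩ : ∃ L : ℝ, L = Real.sqrt (1 + 3 * K) := ⟨_, rfl⟩
  have hL2 : L ^ 2 = 1 + 3 * K := by rw [hLdef]; exact Real.sq_sqrt (by positivity)
  have hL : 0 < L := by rw [hLdef]; exact Real.sqrt_pos.2 (by positivity)
  have h6 := S_ge hL K (0, 0) (1, 2) c₀ 1 rfl
  have h7 : psi L K ((1 : ℕ) : ℝ) = 1 / L := by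
    unfold psi
    have e : (((1 : ℕ) : ℝ) ^ 3 + 3 * K * ((1 : ℕ) : ℝ)) = L ^ 2 := by rw [hL2]; push_cast; ring
    rw [e]
    push_cast
    field_simp
    ring
  rw [h7] at h6
  have h8 := S_nonneg K (st 1 (0, 0)) (st 1 (0, 1)) c₁
  refine le_trans ?_ (show 2 ^ K * (1 / L) ≤ S (K + 1) (0, 0) (0, 1) x₀ by rw [hs]; linarith)
  -- numbers
  have hY0 : (0 : ℝ) < Y := by exact_mod_cast (show 0 < Y by omega)
  have hlogY : ((K : ℝ) + 1) * Real.log 2 ≤ Real.log Y := by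
    have h9 : Real.log ((2 : ℝ) ^ (K + 1)) ≤ Real.log Y := by
      apply Real.log_le_log (by positivity)
      exact_mod_cast hlow
    rw [Real.log_pow] at h9
    push_cast at h9
    exact h9
  have hl2 := Real.log_two_gt_d9
  have hlog0 : 0 < Real.log Y := by
    have : (0 : ℝ) < ((K : ℝ) + 1) * Real.log 2 := by positivity
    linarith
  have hlogK : (1 + 3 * (K : ℝ)) * 16 ≤ 100 * Real.log Y := by
    have hK0 : (0 : ℝ) ≤ K := Nat.cast_nonneg _
    nlinarith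
  have hsq : 4 * L ≤ 10 * Real.sqrt (Real.log Y) := by
    have h10 : (4 * L) ^ 2 ≤ (10 * Real.sqrt (Real.log Y)) ^ 2 := by
      rw [mul_pow, mul_pow, hL2, Real.sq_sqrt hlog0.le]
      linarith
    exact le_of_sq_le_sq h10 (by positivity)
  have hYup : (Y : ℝ) ≤ 4 * 2 ^ K := by
    have h11 : Y ≤ 4 * 2 ^ K := by
      have : 2 ^ (K + 2) = 4 * 2 ^ K := by ring
      omega
    exact_mod_cast h11
  calc (Y : ℝ) / (10 * Real.sqrt (Real.log Y)) ≤ (4 * 2 ^ K) / (4 * L) := by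
        apply div_le_div₀ (by positivity) hYup (by positivity) hsq
    _ = 2 ^ K * (1 / L) := by field_simp

end Pool.Agent.LCF
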