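import Mathlib
import Pool.Agent.LCF.Whole

set_option autoImplicit false

namespace Pool.Agent.LCF

open Filter Topology Finset
open Pool.Agent.SLD (N)


/-- averaging over shifts -/
theorem shift_avg (f : ℕ → ℝ) (hf : ∀ n, |f n| ≤ 1) (X h : ℕ) :
    |h * ∑ n ∈ Ico X (2 * X), f n - ∑ x ∈ Ico X (2 * X), ∑ j ∈ range h, f (x + j + 1)| ≤ h * (h + 1) := by
  have h1 : ∀ j : ℕ, |∑ n ∈ Ico X (2 * X), f n - ∑ x ∈ Ico X (2 * X), f (x + j + 1)| ≤ 2 * (j + 1) := by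
    intro j
    have e1 : ∑ x ∈ Ico X (2 * X), f (x + j + 1) = ∑ x ∈ Ico (X + (j + 1)) (2 * X + (j + 1)), f x := by
      rw [← Finset.sum_Ico_add' f X (2 * X) (j + 1)]
      rfl
    have e2 : ∑ n ∈ Ico X (2 * X), f n + ∑ n ∈ Ico (2 * X) (2 * X + (j + 1)), f n =
        ∑ n ∈ Ico X (2 * X + (j + 1)), f n := Finset.sum_Ico_consecutive f (by omega) (by omega)
    have e3 : ∑ n ∈ Ico X (X + (j + 1)), f n + ∑ n ∈ Ico (X + (j + 1)) (2 * X + (j + 1)), f n =
        ∑ n ∈ Ico X (2 * X + (j + 1)), f n := Finset.sum_Ico_consecutive f (by omega) (by omega)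
    have b1 : |∑ n ∈ Ico (2 * X) (2 * X + (j + 1)), f n| ≤ j + 1 := by
      refine (Finset.abs_sum_le_sum_abs _ _).trans ((Finset.sum_le_sum fun n _ => hf n).trans ?_)
      simp
    have b2 : |∑ n ∈ Ico X (X + (j + 1)), f n| ≤ j + 1 := by
      refine (Finset.abs_sum_le_sum_abs _ _).trans ((Finset.sum_le_sum fun n _ => hf n).trans ?_)
      simp
    rw [e1]
    have e4 : ∑ n ∈ Ico X (2 * X), f n - ∑ n ∈ Ico (X + (j + 1)) (2 * X + (j + 1)), f n =
        ∑ n ∈ Ico X (X + (j + 1)), f n - ∑ n ∈ Ico (2 * X) (2 * X + (j + 1)), f n := by linarith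
    rw [e4]
    refine (abs_sub _ _).trans ?_
    linarith
  have e5 : h * ∑ n ∈ Ico X (2 * X), f n - ∑ x ∈ Ico X (2 * X), ∑ j ∈ range h, f (x + j + 1) =
      ∑ j ∈ range h, (∑ n ∈ Ico X (2 * X), f n - ∑ x ∈ Ico X (2 * X), f (x + j + 1)) := by
    rw [Finset.sum_sub_distrib, Finset.sum_const, card_range, nsmul_eq_mul, Finset.sum_comm]
  rw [e5]
  refine (Finset.abs_sum_le_sum_abs _ _).trans ((Finset.sum_le_sum fun j _ => h1 j).trans ?_)
  have e6 : ∀ h : ℕ, ∑ j ∈ range h, (2 * ((j : ℝ) + 1)) = h * (h + 1) := by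
    intro h
    induction h with
    | zero => simp
    | succ h ih =>
      rw [Finset.sum_range_succ, ih]
      push_cast
      ring
  rw [e6]


theorem N_compl {σ : ℤ} (hσ : |σ| = 1) (A : Set ℤ) (Y : ℕ) : (N σ Aᶜ Y 1 0 : ℝ) = Y - N σ A Y 1 0 := by
  have hs : σ = 1 ∨ σ = -1 := (abs_eq (by norm_num)).1 hσ
  have hss : σ * σ = 1 := by rcases hs with rfl | rfl <;> norm_num
  have hS : ({n : ℤ | 1 ≤ σ * n ∧ σ * n ≤ Y} : Set ℤ) = (fun m : ℤ => σ * m) '' (↑(Finset.Icc (1 : ℤ) Y) : Set ℤ) := by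
    ext n
    simp only [Set.mem_setOf_eq, Set.mem_image, Finset.coe_Icc, Set.mem_Icc]
    constructor
    · rintro ⟨h1, h2⟩
      exact ⟨σ * n, ⟨h1, h2⟩, by rw [← mul_assoc, hss, one_mul]⟩
    · rintro ⟨m, ⟨h1, h2⟩, rfl⟩
      rw [← mul_assoc, hss, one_mul]
      exact ⟨h1, h2⟩
  have hinj : Function.Injective (fun m : ℤ => σ * m) := by
    intro a b hab
    have : σ * (σ * a) = σ * (σ * b) := by simp only at hab; rw [hab]
    rwa [← mul_assoc, ← mul_assoc, hss, one_mul, one_mul] at this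
  have hc : ({n : ℤ | 1 ≤ σ * n ∧ σ * n ≤ Y} : Set ℤ).ncard = Y := by
    rw [hS, Set.ncard_image_of_injective _ hinj, Set.ncard_coe_finset, Int.card_Icc]
    omega
  have hf : ({n : ℤ | 1 ≤ σ * n ∧ σ * n ≤ Y} : Set ℤ).Finite := by
    rw [hS]
    exact (Finset.finite_toSet _).image _
  have hu : ({n : ℤ | 1 ≤ σ * n ∧ σ * n ≤ Y} : Set ℤ) =
      {n : ℤ | 1 ≤ σ * n ∧ σ * n ≤ Y ∧ ((1 : ℕ) : ℤ) ∣ n - 0 ∧ n ∈ A} ∪
      {n : ℤ | 1 ≤ σ * n ∧ σ * n ≤ Y ∧ ((1 : ℕ) : ℤ) ∣ n - 0 ∧ n ∈ Aᶜ} := by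
    ext n
    simp only [Set.mem_setOf_eq, Set.mem_union, Set.mem_compl_iff, Nat.cast_one, one_dvd, true_and]
    tauto
  have hdis : Disjoint {n : ℤ | 1 ≤ σ * n ∧ σ * n ≤ Y ∧ ((1 : ℕ) : ℤ) ∣ n - 0 ∧ n ∈ A}
      {n : ℤ | 1 ≤ σ * n ∧ σ * n ≤ Y ∧ ((1 : ℕ) : ℤ) ∣ n - 0 ∧ n ∈ Aᶜ} := by
    rw [Set.disjoint_left]
    rintro n ⟨_, _, _, h1⟩ ⟨_, _, _, h2⟩
    exact h2 h1
  have h3 := Set.ncard_union_eq hdis (hf.subset fun n hn => ⟨hn.1, hn.2.1⟩) (hf.subset fun n hn => ⟨hn.1, hn.2.1⟩)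
  rw [← hu, hc] at h3
  have h4 : (Y : ℝ) = N σ A Y 1 0 + N σ Aᶜ Y 1 0 := by
    unfold N
    exact_mod_cast h3
  linarith

open Classical in
/-- The law of weights for `|m| ≤ 1`. -/
theorem weights1 {c : ℝ} (hc0 : 0 < c) (hc1 : c ≤ 1) (hQ : Pool.Agent.RTE.ALQc c) (hMo : MonoT) :
    ∃ δ C : ℝ, 0 < δ ∧ 0 < C ∧ ∀ (σ : ℤ) (K : ℕ) (A : Set ℤ) (d : ℝ) (X h : ℕ) (w : ℕ → ℝ) (m : ℝ), |σ| = 1 →
      Pool.Agent.SLD.EvInv K A → Tendsto (fun Y : ℕ => (N σ A Y 1 0 : ℝ) / Y) atTop (𝓝 d) →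
      2 ≤ X → (K : ℝ) ≤ (X : ℝ) ^ δ → 1 ≤ h → (∀ n, |w n| ≤ 1) → |m| ≤ 1 →
      |(∑ n ∈ Ico X (2 * X), if σ * (n : ℤ) ∈ A then w n else 0) - d * m * X| ≤
        C * X * ((1 + Real.log h) / Real.sqrt (Real.log X) + 1 / Real.log X ^ c) + h +
          ∑ x ∈ Ico X (2 * X), |(∑ j ∈ range h, w (x + j + 1)) / h - m| := by
  obtain ⟨δ, C, hδ, hC, hW⟩ := whole_law hc0 hc1 hQ hMo
  refine ⟨δ, 3 * C + 2, hδ, by positivity, ?_⟩
  intro σ K A d X h w m hσ hA hd hX hK hh hw hm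
  have hX1 : (1 : ℝ) < X := by exact_mod_cast (show 1 < X by omega)
  have hX0 : (0 : ℝ) < X := by linarith
  have hlog : 0 < Real.log X := Real.log_pos hX1
  have hh1 : (1 : ℝ) ≤ h := by exact_mod_cast hh
  have hh0 : (0 : ℝ) < h := by linarith
  have hlh : 0 ≤ Real.log h := Real.log_nonneg hh1
  have hA' : Pool.Agent.SLD.EvInv K Aᶜ := by
    intro n hn
    have := hA n hn
    simp only [Set.mem_compl_iff]
    exact not_congr this
  have hd' : Tendsto (fun Y : ℕ => (N σ Aᶜ Y 1 0 : ℝ) / Y) atTop (𝓝 (1 - d)) := by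
    have h1 : Tendsto (fun Y : ℕ => 1 - (N σ A Y 1 0 : ℝ) / Y) atTop (𝓝 (1 - d)) := hd.const_sub 1
    refine h1.congr' ?_
    filter_upwards [eventually_gt_atTop 0] with Y hY
    have hY0 : (Y : ℝ) ≠ 0 := by exact_mod_cast hY.ne'
    rw [N_compl hσ, sub_div, div_self hY0]
  obtain ⟨E, hE⟩ : ∃ E : ℝ, E = C * X * ((1 + Real.log h) / Real.sqrt (Real.log X) + 1 / Real.log X ^ c) := ⟨_, rfl⟩
  have hlc : 0 < Real.log X ^ c := Real.rpow_pos_of_pos hlog c
  have hE0 : 0 ≤ E := by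
    rw [hE]
    positivity
  have w1 := hW σ K A d X h hσ hA hd hX hK hh
  have w2 := hW σ K Aᶜ (1 - d) X h hσ hA' hd' hX hK hh
  rw [← hE] at w1 w2
  -- the sets
  obtain ⟨G, hG⟩ : ∃ G : Finset ℕ, G = (Ico X (2 * X)).filter fun x => ∀ n : ℕ, x < n → n ≤ x + h → σ * (n : ℤ) ∈ A :=
    ⟨_, rfl⟩
  obtain ⟨G', hG'⟩ : ∃ G' : Finset ℕ, G' = (Ico X (2 * X)).filter fun x => ∀ n : ℕ, x < n → n ≤ x + h → σ * (n : ℤ) ∈ Aᶜ :=
    ⟨_, rfl⟩
  have n1 : (Set.ncard {x : ℕ | X ≤ x ∧ x < 2 * X ∧ ∀ n : ℕ, x < n → n ≤ x + h → σ * (n : ℤ) ∈ A} : ℝ) = G.card := by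
    rw [← Set.ncard_coe_finset, hG]
    congr 2
    ext x
    simp only [Set.mem_setOf_eq, Finset.mem_coe, Finset.mem_filter, Finset.mem_Ico, and_assoc]
  have n2 : (Set.ncard {x : ℕ | X ≤ x ∧ x < 2 * X ∧ ∀ n : ℕ, x < n → n ≤ x + h → σ * (n : ℤ) ∈ Aᶜ} : ℝ) = G'.card := by
    rw [← Set.ncard_coe_finset, hG']
    congr 2
    ext x
    simp only [Set.mem_setOf_eq, Finset.mem_coe, Finset.mem_filter, Finset.mem_Ico, and_assoc]
  rw [n1] at w1
  rw [n2] at w2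
  obtain ⟨f, hf⟩ : ∃ f : ℕ → ℝ, f = fun n : ℕ => if σ * (n : ℤ) ∈ A then w n else 0 := ⟨_, rfl⟩
  have hf1 : ∀ n, |f n| ≤ 1 := by
    intro n
    rw [hf]
    simp only
    split_ifs
    · exact hw n
    · simp
  have s1 := shift_avg f hf1 X h
  obtain ⟨a, ha⟩ : ∃ a : ℕ → ℝ, a = fun x => |(∑ j ∈ range h, w (x + j + 1)) / h - m| := ⟨_, rfl⟩
  have hpt : ∀ x ∈ Ico X (2 * X), |∑ j ∈ range h, f (x + j + 1) - (if x ∈ G then (h : ℝ) * m else 0)| ≤
      h * a x + (1 - (if x ∈ G then (1 : ℝ) else 0) - (if x ∈ G' then (1 : ℝ) else 0)) * h := by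
    intro x hx
    have ha0 : 0 ≤ a x := by rw [ha]; exact abs_nonneg _
    by_cases h1 : x ∈ G
    · have h2 : x ∉ G' := by
        intro h3
        rw [hG, Finset.mem_filter] at h1
        rw [hG', Finset.mem_filter] at h3
        exact h3.2 (x + 1) (by omega) (by omega) (h1.2 (x + 1) (by omega) (by omega))
      rw [if_pos h1, if_pos h1, if_neg h2]
      have h4 : ∑ j ∈ range h, f (x + j + 1) = ∑ j ∈ range h, w (x + j + 1) := by
        apply Finset.sum_congr rfl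
        intro j hj
        rw [Finset.mem_range] at hj
        rw [hG, Finset.mem_filter] at h1
        have h5 := h1.2 (x + j + 1) (by omega) (by omega)
        rw [hf]
        simp only
        rw [if_pos h5]
      rw [h4]
      have h6 : ∑ j ∈ range h, w (x + j + 1) - h * m = h * ((∑ j ∈ range h, w (x + j + 1)) / h - m) := by
        field_simp
      rw [h6, abs_mul, abs_of_pos hh0]
      rw [ha]
      simp only
      linarith
    · rw [if_neg h1, if_neg h1]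
      by_cases h2 : x ∈ G'
      · rw [if_pos h2]
        have h4 : ∑ j ∈ range h, f (x + j + 1) = 0 := by
          apply Finset.sum_eq_zero
          intro j hj
          rw [Finset.mem_range] at hj
          rw [hG', Finset.mem_filter] at h2
          have h5 := h2.2 (x + j + 1) (by omega) (by omega)
          rw [hf]
          simp only
          rw [if_neg h5]
        rw [h4]
        simp only [sub_zero, abs_zero, sub_self, zero_mul, add_zero]
        positivity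
      · rw [if_neg h2]
        have h4 : |∑ j ∈ range h, f (x + j + 1)| ≤ h := by
          refine (Finset.abs_sum_le_sum_abs _ _).trans ((Finset.sum_le_sum fun n _ => hf1 _).trans ?_)
          simp
        have h5 : 0 ≤ (h : ℝ) * a x := by positivity
        simp only [sub_zero, one_mul]
        linarith
  have s2 := Finset.sum_le_sum hpt
  have cG : ∑ x ∈ Ico X (2 * X), (if x ∈ G then (1 : ℝ) else 0) = G.card := by
    rw [Finset.sum_ite_mem, Finset.sum_const, nsmul_eq_mul, mul_one]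
    congr 2
    rw [hG]
    exact Finset.inter_eq_right.2 (Finset.filter_subset _ _)
  have cG' : ∑ x ∈ Ico X (2 * X), (if x ∈ G' then (1 : ℝ) else 0) = G'.card := by
    rw [Finset.sum_ite_mem, Finset.sum_const, nsmul_eq_mul, mul_one]
    congr 2
    rw [hG']
    exact Finset.inter_eq_right.2 (Finset.filter_subset _ _)
  have cGm : ∑ x ∈ Ico X (2 * X), (if x ∈ G then (h : ℝ) * m else 0) = h * m * G.card := by
    rw [← cG, Finset.mul_sum]
    apply Finset.sum_congr rfl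
    intro x _
    split_ifs <;> ring
  have s3 : |∑ x ∈ Ico X (2 * X), ∑ j ∈ range h, f (x + j + 1) - h * m * G.card| ≤
      h * ∑ x ∈ Ico X (2 * X), a x + (X - G.card - G'.card) * h := by
    rw [← cGm, ← Finset.sum_sub_distrib]
    refine (Finset.abs_sum_le_sum_abs _ _).trans (s2.trans (le_of_eq ?_))
    rw [Finset.sum_add_distrib, ← Finset.mul_sum, ← Finset.sum_mul, Finset.sum_sub_distrib, Finset.sum_sub_distrib,
      cG, cG', Finset.sum_const, Nat.card_Ico, nsmul_eq_mul, mul_one]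
    congr 2
    have : 2 * X - X = X := by omega
    rw [this]
  have e1 : (X : ℝ) - G.card - G'.card ≤ 2 * E := by
    have := abs_le.1 w1
    have := abs_le.1 w2
    linarith
  have e2 : |h * m * G.card - h * (d * m * X)| ≤ h * E := by
    have : (h : ℝ) * m * G.card - h * (d * m * X) = h * (m * (G.card - d * X)) := by ring
    rw [this, abs_mul, abs_of_pos hh0, abs_mul]
    apply mul_le_mul_of_nonneg_left _ hh0.le
    calc |m| * |(G.card : ℝ) - d * X| ≤ 1 * E := mul_le_mul hm w1 (abs_nonneg _) zero_le_one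
      _ = E := one_mul _
  have e3 : (1 : ℝ) ≤ 2 * X * (1 / Real.log X ^ c) := by
    rw [mul_one_div, one_le_div hlc]
    by_cases h1 : Real.log X ≤ 1
    · have : Real.log X ^ c ≤ 1 := Real.rpow_le_one hlog.le h1 hc0.le
      linarith
    · have h2 : Real.log X ^ c ≤ Real.log X ^ (1 : ℝ) := Real.rpow_le_rpow_of_exponent_le (by linarith) hc1
      rw [Real.rpow_one] at h2
      have h3 := Real.log_le_sub_one_of_pos hX0
      linarith
  have key : |h * (∑ n ∈ Ico X (2 * X), f n - d * m * X)| ≤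
      h * ((h + 1) + ∑ x ∈ Ico X (2 * X), a x + 3 * E) := by
    have t : h * (∑ n ∈ Ico X (2 * X), f n - d * m * X) =
        (h * ∑ n ∈ Ico X (2 * X), f n - ∑ x ∈ Ico X (2 * X), ∑ j ∈ range h, f (x + j + 1)) +
        (∑ x ∈ Ico X (2 * X), ∑ j ∈ range h, f (x + j + 1) - h * m * G.card) +
        (h * m * G.card - h * (d * m * X)) := by ring
    rw [t]
    refine (abs_add_le _ _).trans ?_
    have t2 := abs_add_le (h * ∑ n ∈ Ico X (2 * X), f n - ∑ x ∈ Ico X (2 * X), ∑ j ∈ range h, f (x + j + 1))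
      (∑ x ∈ Ico X (2 * X), ∑ j ∈ range h, f (x + j + 1) - h * m * G.card)
    have t3 : ((X : ℝ) - G.card - G'.card) * h ≤ 2 * E * h := mul_le_mul_of_nonneg_right e1 hh0.le
    nlinarith
  rw [abs_mul, abs_of_pos hh0] at key
  have key2 := le_of_mul_le_mul_left key hh0
  have e4 : ∑ n ∈ Ico X (2 * X), f n = ∑ n ∈ Ico X (2 * X), if σ * (n : ℤ) ∈ A then w n else 0 := by rw [hf]
  rw [e4, ha] at key2
  have e5 : 0 ≤ (X : ℝ) * ((1 + Real.log h) / Real.sqrt (Real.log X)) := by positivity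
  rw [hE] at key2
  nlinarith

theorem clamp_le {y m : ℝ} (hy : |y| ≤ 1) :
    |y - max (-1) (min m 1)| + |m - max (-1) (min m 1)| ≤ |y - m| := by
  obtain ⟨h1, h2⟩ := abs_le.1 hy
  rcases le_total m 1 with hm | hm
  · rw [min_eq_left hm]
    rcases le_total (-1) m with hm' | hm'
    · rw [max_eq_right hm', sub_self, abs_zero, add_zero]
    · rw [max_eq_left hm', abs_of_nonneg (by linarith), abs_of_nonpos (by linarith), abs_of_nonneg (by linarith)]
      linarith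
  · rw [min_eq_right hm, max_eq_right (by norm_num), abs_of_nonpos (by linarith), abs_of_nonneg (by linarith),
      abs_of_nonpos (by linarith)]
    linarith

open Classical in
/-- **The law of weights.** -/
theorem weights {c : ℝ} (hc0 : 0 < c) (hc1 : c ≤ 1) (hQ : Pool.Agent.RTE.ALQc c) (hMo : MonoT) :
    ∃ δ C : ℝ, 0 < δ ∧ 0 < C ∧ ∀ (σ : ℤ) (K : ℕ) (A : Set ℤ) (d : ℝ) (X h : ℕ) (w : ℕ → ℝ) (m : ℝ), |σ| = 1 →
      Pool.Agent.SLD.EvInv K A → Tendsto (fun Y : ℕ => (N σ A Y 1 0 : ℝ) / Y) atTop (𝓝 d) →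
      2 ≤ X → (K : ℝ) ≤ (X : ℝ) ^ δ → 1 ≤ h → (∀ n, |w n| ≤ 1) →
      |(∑ n ∈ Ico X (2 * X), if σ * (n : ℤ) ∈ A then w n else 0) - d * m * X| ≤
        C * X * ((1 + Real.log h) / Real.sqrt (Real.log X) + 1 / Real.log X ^ c) + h +
          ∑ x ∈ Ico X (2 * X), |(∑ j ∈ range h, w (x + j + 1)) / h - m| := by
  obtain ⟨δ, C, hδ, hC, hW⟩ := weights1 hc0 hc1 hQ hMo
  refine ⟨δ, C, hδ, hC, ?_⟩
  intro σ K A d X h w m hσ hA hd hX hK hh hw
  obtain ⟨m', hm'⟩ : ∃ m' : ℝ, m' = max (-1) (min m 1) := ⟨_, rfl⟩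
  have hm1 : |m'| ≤ 1 := by
    rw [hm', abs_le]
    exact ⟨le_max_left _ _, max_le (by norm_num) (min_le_right _ _)⟩
  have h1 := hW σ K A d X h w m' hσ hA hd hX hK hh hw hm1
  have hd0 : 0 ≤ d := ge_of_tendsto' hd fun Y => by positivity
  have hd1 : d ≤ 1 := by
    apply le_of_tendsto' hd
    intro Y
    have h2 := N_compl hσ A Y
    have h3 : (0 : ℝ) ≤ N σ Aᶜ Y 1 0 := Nat.cast_nonneg _
    rcases Nat.eq_zero_or_pos Y with h4 | h4
    · subst h4
      simp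
    · rw [div_le_one (by exact_mod_cast h4)]
      linarith
  have hX0 : (0 : ℝ) ≤ X := Nat.cast_nonneg _
  have hh0 : (0 : ℝ) < h := by exact_mod_cast hh
  have h5 : ∑ x ∈ Ico X (2 * X), |(∑ j ∈ range h, w (x + j + 1)) / h - m'| + X * |m - m'| ≤
      ∑ x ∈ Ico X (2 * X), |(∑ j ∈ range h, w (x + j + 1)) / h - m| := by
    have h6 : (X : ℝ) * |m - m'| = ∑ x ∈ Ico X (2 * X), |m - m'| := by
      rw [Finset.sum_const, Nat.card_Ico, nsmul_eq_mul]
      congr 2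
      omega
    rw [h6, ← Finset.sum_add_distrib]
    apply Finset.sum_le_sum
    intro x _
    rw [hm']
    apply clamp_le
    rw [abs_div, abs_of_pos hh0, div_le_one hh0]
    refine (Finset.abs_sum_le_sum_abs _ _).trans ((Finset.sum_le_sum fun n _ => hw _).trans ?_)
    simp
  have h7 : |(∑ n ∈ Ico X (2 * X), if σ * (n : ℤ) ∈ A then w n else 0) - d * m * X| ≤
      |(∑ n ∈ Ico X (2 * X), if σ * (n : ℤ) ∈ A then w n else 0) - d * m' * X| + X * |m - m'| := by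
    have t : (∑ n ∈ Ico X (2 * X), if σ * (n : ℤ) ∈ A then w n else 0) - d * m * X =
        ((∑ n ∈ Ico X (2 * X), if σ * (n : ℤ) ∈ A then w n else 0) - d * m' * X) - d * X * (m - m') := by ring
    rw [t]
    refine (abs_sub _ _).trans ?_
    rw [abs_mul (d * X), abs_of_nonneg (by positivity : 0 ≤ d * (X : ℝ))]
    have h8 : d * X * |m - m'| ≤ 1 * X * |m - m'| := by gcongr
    linarith
  linarith

end Pool.Agent.LCF
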